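import Pool.Agent.K4H90.RU.Roots

/-!
# A base in general position
-/

set_option autoImplicit false
set_option linter.unusedSectionVars false

namespace Pool.Agent.K4H90.RU

open Finset Pool.Agent.K4H90.RC

variable {G : Type} [Group G] [Fintype G] [DecidableEq G]

/-- The points are in general position. -/
structure Gen (L : ℕ) (p : Fin 9 → G) : Prop where
  a : ∀ i, ¬ Nr L (p i)⁻¹ 1
  b : ∀ i l, i ≠ l → ¬ Nr L (p i)⁻¹ (p l)⁻¹
  c : ∀ i j, i ≠ j → ¬ Nr L ((p i)⁻¹ * p j) 1
  d : ∀ i j l, i ≠ j → ¬ Nr L ((p i)⁻¹ * p j) (p l)⁻¹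

/-- Counting tuples by changing one entry. -/
theorem count_upd {M : ℕ} (t : Fin M) (P : (Fin M → G) → Prop) [DecidablePred P] (K : ℕ)
    (h : ∀ p, (univ.filter fun x => P (Function.update p t x)).card ≤ K) :
    Fintype.card G * (univ.filter P).card ≤ K * Fintype.card G ^ M := by
  have h1 : ((univ : Finset ((Fin M → G) × G)).filter fun q => P (Function.update q.1 t q.2)).card =
      ((univ.filter P) ×ˢ (univ : Finset G)).card := by
    refine card_bij' (fun q _ => (Function.update q.1 t q.2, q.1 t))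
      (fun q _ => (Function.update q.1 t q.2, q.1 t)) ?_ ?_ ?_ ?_
    · intro q hq
      exact mem_product.2 ⟨mem_filter.2 ⟨mem_univ _, (mem_filter.1 hq).2⟩, mem_univ _⟩
    · intro q hq
      refine mem_filter.2 ⟨mem_univ _, ?_⟩
      rw [Function.update_idem, Function.update_eq_self]
      exact (mem_filter.1 (mem_product.1 hq).1).2
    · intro q _
      simp
    · intro q _
      simp
  have h2 : ((univ : Finset ((Fin M → G) × G)).filter fun q => P (Function.update q.1 t q.2)).card ≤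
      ∑ _p : Fin M → G, K := by
    rw [card_eq_sum_card_fiberwise (f := fun q => q.1) (t := univ) (fun _ _ => mem_univ _)]
    refine sum_le_sum fun p _ => le_trans ?_ (h p)
    refine card_le_card_of_injOn (fun q => q.2) ?_ ?_
    · intro q hq
      obtain ⟨h3, h4⟩ := mem_filter.1 hq
      have h5 := (mem_filter.1 h3).2
      rw [h4] at h5
      exact mem_coe.2 (mem_filter.2 ⟨mem_univ _, h5⟩)
    · intro q hq q' hq' hqq
      exact Prod.ext ((mem_filter.1 hq).2.trans (mem_filter.1 hq').2.symm) hqq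
  rw [h1, card_product, sum_const, smul_eq_mul, card_univ, card_univ, Fintype.card_pi_const] at h2
  linarith

open Classical in
theorem Nr_left' (L : ℕ) (φ : G ≃ G) (x : G) : (univ.filter fun y => Nr L x (φ y)).card ≤
    1 + 3 * L := by
  refine le_trans (card_le_card_of_injOn φ ?_ φ.injective.injOn) (Nr_left L x)
  intro y hy
  exact mem_coe.2 (mem_filter.2 ⟨mem_univ _, (mem_filter.1 hy).2⟩)

open Classical in
theorem Nr_right' (L : ℕ) (φ : G ≃ G) (y : G) : (univ.filter fun x => Nr L (φ x) y).card ≤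
    1 + 3 * L := by
  refine le_trans (card_le_card_of_injOn φ ?_ φ.injective.injOn) (Nr_right L y)
  intro x hx
  exact mem_coe.2 (mem_filter.2 ⟨mem_univ _, (mem_filter.1 hx).2⟩)

/-- The elements which invert all guards. -/
def Iv (p : Fin 9 → G) : Finset G :=
  univ.filter fun s => s * s ≠ 1 ∧ ∀ i : Fin 9, (i : ℕ) < 6 → s * p i * s⁻¹ = (p i)⁻¹

theorem sum_Iv : 4 ^ 6 * ∑ p : Fin 9 → G, (Iv p).card ≤ 3 ^ 6 * Fintype.card G ^ 10 := by
  classical
  set n := Fintype.card G with hn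
  have h1 : ∑ p : Fin 9 → G, (Iv p).card = ∑ s ∈ univ.filter (fun s : G => s * s ≠ 1),
      (univ.filter fun p : Fin 9 → G => ∀ i : Fin 9, (i : ℕ) < 6 → s * p i * s⁻¹ = (p i)⁻¹).card := by
    have e1 : ∀ p : Fin 9 → G, (Iv p).card = ∑ s ∈ univ.filter (fun s : G => s * s ≠ 1),
        if ∀ i : Fin 9, (i : ℕ) < 6 → s * p i * s⁻¹ = (p i)⁻¹ then 1 else 0 := by
      intro p
      rw [← card_filter, filter_filter]
      rfl
    rw [sum_congr rfl fun p _ => e1 p, sum_comm]
    refine sum_congr rfl fun s _ => ?_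
    rw [card_filter]
  have h2 : ∀ s ∈ univ.filter (fun s : G => s * s ≠ 1), 4 ^ 6 *
      (univ.filter fun p : Fin 9 → G => ∀ i : Fin 9, (i : ℕ) < 6 → s * p i * s⁻¹ = (p i)⁻¹).card ≤
        3 ^ 6 * n ^ 9 := by
    intro s hs
    have hs' := (mem_filter.1 hs).2
    set I : Finset G := univ.filter fun a => s * a * s⁻¹ = a⁻¹ with hI
    have h3 : 4 * I.card ≤ 3 * n := by
      refine le_trans (Nat.mul_le_mul_left _ ?_) (Sq_card hs')
      refine card_le_card_of_injOn (fun a => a * s) ?_ (mul_left_injective s).injOn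
      intro a ha
      have h4 := (mem_filter.1 ha).2
      refine mem_coe.2 (mem_Sq.2 ?_)
      have h5 : s * a = a⁻¹ * s := by
        rw [← h4]
        group
      show a * s * (a * s) = s * s
      calc a * s * (a * s) = a * (s * a) * s := by group
        _ = s * s := by rw [h5]; group
    have h4 : (univ.filter fun p : Fin 9 → G => ∀ i : Fin 9, (i : ℕ) < 6 →
        s * p i * s⁻¹ = (p i)⁻¹) =
        Fintype.piFinset fun i : Fin 9 => if (i : ℕ) < 6 then I else univ := by
      ext p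
      simp only [mem_filter, mem_univ, true_and, Fintype.mem_piFinset]
      refine forall_congr' fun i => ?_
      by_cases hi : (i : ℕ) < 6
      · simp [hi, hI]
      · simp [hi]
    rw [h4, Fintype.card_piFinset]
    simp only [Fin.prod_univ_succ, Finset.univ_eq_empty, Finset.prod_empty]
    norm_num [Fin.val_succ]
    have h5 : 4 ^ 6 * I.card ^ 6 ≤ 3 ^ 6 * n ^ 6 := by
      rw [← mul_pow, ← mul_pow]
      exact Nat.pow_le_pow_left h3 6
    rw [← hn]
    calc _ = (4 ^ 6 * I.card ^ 6) * n ^ 3 := by ring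
      _ ≤ (3 ^ 6 * n ^ 6) * n ^ 3 := Nat.mul_le_mul_right _ h5
      _ = _ := by ring
  rw [h1, mul_sum]
  refine (sum_le_sum h2).trans ?_
  rw [sum_const, smul_eq_mul]
  have h3 : (univ.filter (fun s : G => s * s ≠ 1)).card ≤ n := card_le_univ _
  calc _ ≤ n * (3 ^ 6 * n ^ 9) := Nat.mul_le_mul_right _ h3
    _ = _ := by ring

/-- There is a base in general position such that few elements invert all guards. -/
theorem exists_base (L : ℕ) (hn : 18000 * (1 + 3 * L) < Fintype.card G) :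
    ∃ p : Fin 9 → G, Gen L p ∧ 16 * (Iv p).card ≤ 3 * Fintype.card G := by
  classical
  set n := Fintype.card G with hn'
  set K := 1 + 3 * L with hK
  by_contra hcon
  push Not at hcon
  set B1 : Finset (Fin 9 → G) := univ.filter fun p => 3 * n < 16 * (Iv p).card with hB1
  have h1 : 12288 * B1.card ≤ 11664 * n ^ 9 := by
    have h2 : ∑ p ∈ B1, 3 * n ≤ ∑ p ∈ B1, 16 * (Iv p).card :=
      sum_le_sum fun p hp => (mem_filter.1 hp).2.le
    have h3 : ∑ p ∈ B1, (Iv p).card ≤ ∑ p, (Iv p).card :=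
      sum_le_sum_of_subset (subset_univ _)
    rw [sum_const, smul_eq_mul, ← mul_sum] at h2
    have h4 := sum_Iv (G := G)
    rw [← hn'] at h4
    have h5 : 12288 * B1.card * n ≤ 11664 * n ^ 9 * n := by
      calc 12288 * B1.card * n = 4 ^ 6 * (B1.card * (3 * n)) := by ring
        _ ≤ 4 ^ 6 * (16 * ∑ p ∈ B1, (Iv p).card) := Nat.mul_le_mul_left _ h2
        _ ≤ 4 ^ 6 * (16 * ∑ p, (Iv p).card) :=
            Nat.mul_le_mul_left _ (Nat.mul_le_mul_left _ h3)
        _ = 16 * (4 ^ 6 * ∑ p, (Iv p).card) := by ring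
        _ ≤ 16 * (3 ^ 6 * n ^ 10) := Nat.mul_le_mul_left _ h4
        _ = 11664 * n ^ 9 * n := by ring
    exact Nat.le_of_mul_le_mul_right h5 Fintype.card_pos
  have ha : ∀ i : Fin 9, n * (univ.filter fun p : Fin 9 → G => Nr L (p i)⁻¹ 1).card ≤
      K * n ^ 9 := by
    intro i
    refine count_upd i _ K fun p => ?_
    simp only [Function.update_self]
    exact Nr_right' L (Equiv.inv G) 1
  have hb : ∀ i l : Fin 9, n * (univ.filter fun p : Fin 9 → G =>
      i ≠ l ∧ Nr L (p i)⁻¹ (p l)⁻¹).card ≤ K * n ^ 9 := by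
    intro i l
    by_cases hil : i = l
    · simp [hil]
    · refine count_upd l _ K fun p => ?_
      simp only [Function.update_self, Function.update_of_ne hil, ne_eq, hil, not_false_eq_true,
        true_and]
      exact Nr_left' L (Equiv.inv G) _
  have hc : ∀ i j : Fin 9, n * (univ.filter fun p : Fin 9 → G =>
      i ≠ j ∧ Nr L ((p i)⁻¹ * p j) 1).card ≤ K * n ^ 9 := by
    intro i j
    by_cases hij : i = j
    · simp [hij]
    · refine count_upd j _ K fun p => ?_
      simp only [Function.update_self, Function.update_of_ne hij, ne_eq, hij, not_false_eq_true,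
        true_and]
      exact Nr_right' L (Equiv.mulLeft (p i)⁻¹) 1
  have hd : ∀ i j l : Fin 9, n * (univ.filter fun p : Fin 9 → G =>
      i ≠ j ∧ Nr L ((p i)⁻¹ * p j) (p l)⁻¹).card ≤ K * n ^ 9 := by
    intro i j l
    by_cases hij : i = j
    · simp [hij]
    · by_cases hli : l = i
      · subst hli
        refine count_upd j _ K fun p => ?_
        simp only [Function.update_self, Function.update_of_ne hij, ne_eq, hij, not_false_eq_true,
          true_and]
        exact Nr_right' L (Equiv.mulLeft (p l)⁻¹) _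
      · by_cases hlj : l = j
        · subst hlj
          refine count_upd i _ K fun p => ?_
          simp only [Function.update_self, Function.update_of_ne (Ne.symm hij), ne_eq, hij,
            not_false_eq_true, true_and]
          exact Nr_right' L ((Equiv.inv G).trans (Equiv.mulRight (p l))) _
        · refine count_upd l _ K fun p => ?_
          simp only [Function.update_self, Function.update_of_ne (Ne.symm hli),
            Function.update_of_ne (Ne.symm hlj), ne_eq, hij, not_false_eq_true, true_and]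
          exact Nr_left' L (Equiv.inv G) _
  have hcover : (univ : Finset (Fin 9 → G)) ⊆ B1 ∪
      (univ.biUnion fun i : Fin 9 => univ.filter fun p : Fin 9 → G => Nr L (p i)⁻¹ 1) ∪
      (univ.biUnion fun q : Fin 9 × Fin 9 => univ.filter fun p : Fin 9 → G =>
        q.1 ≠ q.2 ∧ Nr L (p q.1)⁻¹ (p q.2)⁻¹) ∪
      (univ.biUnion fun q : Fin 9 × Fin 9 => univ.filter fun p : Fin 9 → G =>
        q.1 ≠ q.2 ∧ Nr L ((p q.1)⁻¹ * p q.2) 1) ∪
      (univ.biUnion fun q : Fin 9 × Fin 9 × Fin 9 => univ.filter fun p : Fin 9 → G =>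
        q.1 ≠ q.2.1 ∧ Nr L ((p q.1)⁻¹ * p q.2.1) (p q.2.2)⁻¹) := by
    intro p _
    by_contra hp
    simp only [mem_union, mem_biUnion, mem_filter, mem_univ, true_and, not_or, not_exists,
      not_and] at hp
    obtain ⟨⟨⟨⟨p1, p2⟩, p3⟩, p4⟩, p5⟩ := hp
    have hG : Gen L p := ⟨p2, fun i l hil => p3 (i, l) hil, fun i j hij => p4 (i, j) hij,
      fun i j l hij => p5 (i, j, l) hij⟩
    apply p1
    exact mem_filter.2 ⟨mem_univ _, hcon p hG⟩
  have hcard := card_le_card hcover
  rw [card_univ, Fintype.card_pi_const, ← hn'] at hcard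
  have u1 := card_union_le (B1 ∪
      (univ.biUnion fun i : Fin 9 => univ.filter fun p : Fin 9 → G => Nr L (p i)⁻¹ 1) ∪
      (univ.biUnion fun q : Fin 9 × Fin 9 => univ.filter fun p : Fin 9 → G =>
        q.1 ≠ q.2 ∧ Nr L (p q.1)⁻¹ (p q.2)⁻¹) ∪
      (univ.biUnion fun q : Fin 9 × Fin 9 => univ.filter fun p : Fin 9 → G =>
        q.1 ≠ q.2 ∧ Nr L ((p q.1)⁻¹ * p q.2) 1))
      (univ.biUnion fun q : Fin 9 × Fin 9 × Fin 9 => univ.filter fun p : Fin 9 → G =>
        q.1 ≠ q.2.1 ∧ Nr L ((p q.1)⁻¹ * p q.2.1) (p q.2.2)⁻¹)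
  have u2 := card_union_le (B1 ∪
      (univ.biUnion fun i : Fin 9 => univ.filter fun p : Fin 9 → G => Nr L (p i)⁻¹ 1) ∪
      (univ.biUnion fun q : Fin 9 × Fin 9 => univ.filter fun p : Fin 9 → G =>
        q.1 ≠ q.2 ∧ Nr L (p q.1)⁻¹ (p q.2)⁻¹))
      (univ.biUnion fun q : Fin 9 × Fin 9 => univ.filter fun p : Fin 9 → G =>
        q.1 ≠ q.2 ∧ Nr L ((p q.1)⁻¹ * p q.2) 1)
  have u3 := card_union_le (B1 ∪
      (univ.biUnion fun i : Fin 9 => univ.filter fun p : Fin 9 → G => Nr L (p i)⁻¹ 1))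
      (univ.biUnion fun q : Fin 9 × Fin 9 => univ.filter fun p : Fin 9 → G =>
        q.1 ≠ q.2 ∧ Nr L (p q.1)⁻¹ (p q.2)⁻¹)
  have u4 := card_union_le B1
      (univ.biUnion fun i : Fin 9 => univ.filter fun p : Fin 9 → G => Nr L (p i)⁻¹ 1)
  have v1 : n * (univ.biUnion fun i : Fin 9 => univ.filter fun p : Fin 9 → G =>
      Nr L (p i)⁻¹ 1).card ≤ 9 * (K * n ^ 9) := by
    refine (Nat.mul_le_mul_left _ card_biUnion_le).trans ?_
    rw [mul_sum]
    refine (sum_le_sum fun i _ => ha i).trans ?_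
    simp
  have v2 : n * (univ.biUnion fun q : Fin 9 × Fin 9 => univ.filter fun p : Fin 9 → G =>
        q.1 ≠ q.2 ∧ Nr L (p q.1)⁻¹ (p q.2)⁻¹).card ≤ 81 * (K * n ^ 9) := by
    refine (Nat.mul_le_mul_left _ card_biUnion_le).trans ?_
    rw [mul_sum]
    refine (sum_le_sum fun q _ => hb q.1 q.2).trans ?_
    simp
  have v3 : n * (univ.biUnion fun q : Fin 9 × Fin 9 => univ.filter fun p : Fin 9 → G =>
        q.1 ≠ q.2 ∧ Nr L ((p q.1)⁻¹ * p q.2) 1).card ≤ 81 * (K * n ^ 9) := by
    refine (Nat.mul_le_mul_left _ card_biUnion_le).trans ?_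
    rw [mul_sum]
    refine (sum_le_sum fun q _ => hc q.1 q.2).trans ?_
    simp
  have v4 : n * (univ.biUnion fun q : Fin 9 × Fin 9 × Fin 9 => univ.filter fun p : Fin 9 → G =>
        q.1 ≠ q.2.1 ∧ Nr L ((p q.1)⁻¹ * p q.2.1) (p q.2.2)⁻¹).card ≤ 729 * (K * n ^ 9) := by
    refine (Nat.mul_le_mul_left _ card_biUnion_le).trans ?_
    rw [mul_sum]
    refine (sum_le_sum fun q _ => hd q.1 q.2.1 q.2.2).trans ?_
    simp
  set c1 := (univ.biUnion fun i : Fin 9 => univ.filter fun p : Fin 9 → G =>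
      Nr L (p i)⁻¹ 1).card
  set c2 := (univ.biUnion fun q : Fin 9 × Fin 9 => univ.filter fun p : Fin 9 → G =>
        q.1 ≠ q.2 ∧ Nr L (p q.1)⁻¹ (p q.2)⁻¹).card
  set c3 := (univ.biUnion fun q : Fin 9 × Fin 9 => univ.filter fun p : Fin 9 → G =>
        q.1 ≠ q.2 ∧ Nr L ((p q.1)⁻¹ * p q.2) 1).card
  set c4 := (univ.biUnion fun q : Fin 9 × Fin 9 × Fin 9 => univ.filter fun p : Fin 9 → G =>
        q.1 ≠ q.2.1 ∧ Nr L ((p q.1)⁻¹ * p q.2.1) (p q.2.2)⁻¹).card
  have w1 : n ^ 9 ≤ B1.card + c1 + c2 + c3 + c4 := by omega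
  have w2 : n * (c1 + c2 + c3 + c4) ≤ 900 * K * n ^ 9 := by
    have : n * (c1 + c2 + c3 + c4) = n * c1 + n * c2 + n * c3 + n * c4 := by ring
    rw [this]
    have : 900 * K * n ^ 9 = 9 * (K * n ^ 9) + 81 * (K * n ^ 9) + 81 * (K * n ^ 9) +
      729 * (K * n ^ 9) := by ring
    rw [this]
    omega
  have w3 : 20 * (c1 + c2 + c3 + c4) ≤ n ^ 9 := by
    by_contra h2
    push Not at h2
    have h3 : n * n ^ 9 < n * (20 * (c1 + c2 + c3 + c4)) :=
      Nat.mul_lt_mul_of_pos_left h2 (by omega)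
    have h4 : n * (20 * (c1 + c2 + c3 + c4)) ≤ 18000 * K * n ^ 9 := by
      calc n * (20 * (c1 + c2 + c3 + c4)) = 20 * (n * (c1 + c2 + c3 + c4)) := by ring
        _ ≤ 20 * (900 * K * n ^ 9) := Nat.mul_le_mul_left _ w2
        _ = _ := by ring
    have h5 : 18000 * K * n ^ 9 ≤ n * n ^ 9 := Nat.mul_le_mul_right _ hn.le
    omega
  have w4 : 0 < n ^ 9 := by
    have : 0 < n := Fintype.card_pos
    positivity
  omega

end Pool.Agent.K4H90.RU
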