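import Pool.Agent.K4H90.RU.WLU

/-!
# Graphs and digraphs together
-/

set_option autoImplicit false
set_option linter.unusedSectionVars false

namespace Pool.Agent.K4H90.RU

open Finset Pool.Agent.K4H90.RC

theorem notDist_mono {V W : Type} {k r r' : ℕ} (h : r ≤ r') {A : V → V → Prop} {B : W → W → Prop}
    (hN : NotDistinguished k r' A B) : NotDistinguished k r A B := by
  obtain ⟨τ, hτ⟩ := hN
  exact ⟨τ, fun x => same_mono h (hτ x)⟩

section

variable {G : Type} [Group G] [Fintype G] [DecidableEq G]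

theorem identified_cayU {L : ℕ} {p : Fin 9 → G} {b : G → Bool}
    (h1 : ∀ g h, Gd L p g → Gd L p h → g ≠ h → ∃ j < 5, DU p g h j b ≠ 0)
    (h2 : ∀ x y, x ≠ y → 2 * (Xc L p).card < (SepU x y b).card) : Identified 11 (cayU b) := by
  have h3 : ∀ x y, SameColour (cayU b) (cayU b) 2 (Function.update (tp p 1) (Fin.last 10) x)
      (Function.update (tp p 1) (Fin.last 10) y) → x = y := by
    intro x y hxy
    rw [tp_update, tp_update] at hxy
    exact disc h1 h2 x y hxy
  exact ⟨⟨tp p 1, Fin.last 10, fun x y hxy => h3 x y (same_mono (by norm_num) hxy)⟩,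
    fun W B hB => identify (r := 2) (tp p 1) (i := Fin.last 10) (j := 0) (by decide) h3
      (notDist_mono (by norm_num) hB)⟩

end

/-- The main result for random Cayley graphs, for bits. -/
theorem bits_sym (ε : ℝ) (hε : 0 < ε) : ∃ C : ℝ, 0 < C ∧
    ∀ (G : Type) [Group G] [Fintype G] [DecidableEq G] (q : G → ℝ) (_ : Pr q)
      (_ : ∀ x, x ≠ 1 → ε ≤ q x ∧ q x ≤ 1 - ε),
      Pb q (fun b => ¬ Identified 11 (cayU b)) ≤ C / Real.sqrt (Fintype.card G + 1) := by
  classical
  by_cases hε2 : 2 * ε ≤ 1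
  · obtain ⟨C1, hC1, h1⟩ := allU ε hε hε2
    set L : ℕ := 300000 with hL
    obtain ⟨C2, hC2, h2⟩ := all_sepU ε hε hε2 (2 * (109 * (1 + 3 * L)) + 1)
    refine ⟨C1 + C2 + Real.sqrt (18000 * (1 + 3 * L) + 30002), by positivity, ?_⟩
    intro G _ _ _ q hq hqε
    have hsq : 0 < Real.sqrt ((Fintype.card G : ℝ) + 1) := Real.sqrt_pos.2 (by positivity)
    rcases Nat.lt_or_ge (18000 * (1 + 3 * L) + 30000) (Fintype.card G) with hge | hlt
    · obtain ⟨p, hp, hI⟩ := exists_base (G := G) L (by omega)
      have h3 := h1 G q hq hqε p hp hI (by omega)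
      have h4 := h2 G q hq hqε (by omega)
      have h5 : ∀ b : G → Bool, ¬ Identified 11 (cayU b) →
          (∃ g h, Gd L p g ∧ Gd L p h ∧ g ≠ h ∧ ∀ j < 5, DU p g h j b = 0) ∨
          ∃ x y, x ≠ y ∧ (SepU x y b).card < 2 * (109 * (1 + 3 * L)) + 1 := by
        intro b hb
        by_contra hcon
        rw [not_or] at hcon
        obtain ⟨c1, c2⟩ := hcon
        apply hb
        refine identified_cayU (L := L) (p := p) (fun g h hg hh hgh => ?_) fun x y hxy => ?_
        · by_contra h6
          push Not at h6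
          exact c1 ⟨g, h, hg, hh, hgh, h6⟩
        · have h6 := Xc_card L p
          by_contra h7
          exact c2 ⟨x, y, hxy, by omega⟩
      refine (Pb_mono hq h5).trans ((Pb_or hq _ _).trans ((add_le_add h3 h4).trans ?_))
      rw [← add_div]
      refine div_le_div_of_nonneg_right ?_ hsq.le
      have := Real.sqrt_nonneg (18000 * (1 + 3 * (L : ℝ)) + 30002)
      linarith
    · refine (Pb_le_one hq _).trans ?_
      rw [le_div_iff₀ hsq, one_mul]
      have h3 : Real.sqrt ((Fintype.card G : ℝ) + 1) ≤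
          Real.sqrt (18000 * (1 + 3 * L) + 30002) := by
        refine Real.sqrt_le_sqrt ?_
        have : (Fintype.card G : ℝ) ≤ ((18000 * (1 + 3 * L) + 30000 : ℕ) : ℝ) := by
          exact_mod_cast hlt
        push_cast at this
        linarith
      linarith
  · refine ⟨Real.sqrt 2, by positivity, ?_⟩
    intro G _ _ _ q hq hqε
    have hc : Fintype.card G = 1 := by
      refine Fintype.card_eq_one_iff.2 ⟨1, fun x => ?_⟩
      by_contra hx
      have := hqε x hx
      linarith
    refine (Pb_le_one hq _).trans ?_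
    rw [hc, le_div_iff₀ (Real.sqrt_pos.2 (by norm_num))]
    norm_num

end Pool.Agent.K4H90.RU
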