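import Pool.Agent.K4H90.RU.Use

/-!
# The effect of a bit on the counts
-/

set_option autoImplicit false
set_option linter.unusedSectionVars false

namespace Pool.Agent.K4H90.RU

open Finset Pool.Agent.K4H90.RC

variable {G : Type} [Group G] [Fintype G] [DecidableEq G]

/-- `x` or its inverse is in the random set. -/
def cs (b : G → Bool) (x : G) : Bool := b x || b x⁻¹

theorem cs_inv (b : G → Bool) (x : G) : cs b x⁻¹ = cs b x := by
  unfold cs
  rw [inv_inv, Bool.or_comm]

theorem cs_Cl {b : G → Bool} {x y : G} (h : Cl x y) : cs b x = cs b y := by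
  rcases h with rfl | rfl
  · rfl
  · exact cs_inv b y

/-- The pattern of the bits at the base: the guards have bit `1`, the last three
points select the count. -/
def pt (j : ℕ) (i : Fin 9) : Bool := decide ((i : ℕ) < 6) || j.testBit ((i : ℕ) - 6)

theorem pt_guard (j : ℕ) {i : Fin 9} (hi : (i : ℕ) < 6) : pt j i = true := by simp [pt, hi]

theorem pt_inj {j j' : ℕ} (hj : j < 5) (hj' : j' < 5) (h : ∀ i, pt j i = pt j' i) : j = j' := by
  have h0 := h 6
  have h1 := h 7
  have h2 := h 8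
  revert h0 h1 h2
  interval_cases j <;> interval_cases j' <;> decide

/-- A vertex has the signature `j`. -/
def Sgn (p : Fin 9 → G) (b : G → Bool) (j : ℕ) (u : G) : Prop :=
  cs b u = true ∧ ∀ i, cs b ((p i)⁻¹ * u) = pt j i

instance (p : Fin 9 → G) (b : G → Bool) (j : ℕ) (u : G) : Decidable (Sgn p b j u) :=
  inferInstanceAs (Decidable (_ ∧ _))

/-- The number of the neighbours of `g` with the signature `j`. -/
def TT (p : Fin 9 → G) (g : G) (j : ℕ) (b : G → Bool) : ℤ :=
  ∑ u, if Sgn p b j u ∧ cs b (g⁻¹ * u) = true then 1 else 0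

/-- The classes with bit `1`. -/
def On (p : Fin 9 → G) (g : G) (j : ℕ) (s y : G) : Prop :=
  (∃ i, pt j i = true ∧ Cl y ((p i)⁻¹ * s)) ∨ Cl y (g⁻¹ * s)

instance (p : Fin 9 → G) (g : G) (j : ℕ) (s y : G) : Decidable (On p g j s y) :=
  inferInstanceAs (Decidable (_ ∨ _))

theorem On_inv {p : Fin 9 → G} {g : G} {j : ℕ} {s y : G} : On p g j s y⁻¹ ↔ On p g j s y := by
  have h : ∀ y : G, On p g j s y → On p g j s y⁻¹ := by
    rintro y (⟨i, h1, h2⟩ | h2)
    · exact Or.inl ⟨i, h1, h2.inv_left⟩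
    · exact Or.inr h2.inv_left
  refine ⟨fun h1 => ?_, h y⟩
  have := h _ h1
  rwa [inv_inv] at this

/-- The environment. -/
def EU (p : Fin 9 → G) (g h s : G) : Finset G := (univ.image fun ι => ev p g h ι s).erase s

section

variable {p : Fin 9 → G} {g h s : G}

theorem Bd_left {x y : G} (h : s ∉ Bd x y) : ¬ Cl (x * s) (y * s) := fun h' =>
  h (mem_filter.2 ⟨mem_univ _, Or.inl h'⟩)

theorem Bd_right {x y : G} (h : s ∉ Bd x y) : ¬ Cl (x * s⁻¹) (y * s) := fun h' =>
  h (mem_filter.2 ⟨mem_univ _, Or.inr h'⟩)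

theorem Bd_sg {x y : G} (h : s ∉ Bd x y) (e : Bool) : ¬ Cl (x * sg e s) (y * s) := by
  cases e
  · exact Bd_right h
  · exact Bd_left h

theorem Us.pi_s (hs : Us p g h s) (i : Fin 9) : ¬ Cl ((p i)⁻¹ * s) s := by
  have := Bd_left (hs.a i)
  rwa [one_mul] at this

theorem Us.pi_pl (hs : Us p g h s) {i l : Fin 9} (hil : i ≠ l) :
    ¬ Cl ((p i)⁻¹ * s) ((p l)⁻¹ * s) := Bd_left (hs.b i l hil)

theorem Us.w_s (hs : Us p g h s) {w : G} (hw : w = g ∨ w = h) : ¬ Cl (w⁻¹ * s) s := by
  have := Bd_left (hs.e w hw)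
  rwa [one_mul] at this

theorem Us.w_pl (hs : Us p g h s) {w : G} (hw : w = g ∨ w = h) (l : Fin 9) :
    ¬ Cl (w⁻¹ * s) ((p l)⁻¹ * s) := Bd_left (hs.f w hw l)

/-- The base points are different. -/
theorem Us.p_inj (hs : Us p g h s) : Function.Injective p := by
  intro i l hil
  by_contra hne
  apply hs.pi_pl hne
  rw [hil]
  exact Cl.refl _

theorem three_guards (j : Fin 9) : ∃ i₁ i₂ i₃ : Fin 9, (i₁ : ℕ) < 6 ∧ (i₂ : ℕ) < 6 ∧
    (i₃ : ℕ) < 6 ∧ i₁ ≠ j ∧ i₂ ≠ j ∧ i₃ ≠ j ∧ i₁ ≠ i₂ ∧ i₁ ≠ i₃ ∧ i₂ ≠ i₃ := by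
  by_cases hj : (j : ℕ) < 3
  · refine ⟨3, 4, 5, by decide, by decide, by decide, ?_, ?_, ?_, by decide, by decide, by decide⟩
    · rintro rfl
      exact absurd hj (by decide)
    · rintro rfl
      exact absurd hj (by decide)
    · rintro rfl
      exact absurd hj (by decide)
  · refine ⟨0, 1, 2, by decide, by decide, by decide, ?_, ?_, ?_, by decide, by decide, by decide⟩
    · rintro rfl
      exact hj (by decide)
    · rintro rfl
      exact hj (by decide)
    · rintro rfl
      exact hj (by decide)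

/-- Every touched vertex different from `s` has a guard whose class is free. -/
theorem Us.guard (hs : Us p g h s) (z : Option (Fin 9 ⊕ Bool)) (e : Bool)
    (hu : zt p g h z * sg e s ≠ s) : ∃ i : Fin 9, (i : ℕ) < 6 ∧
      ¬ Cl ((p i)⁻¹ * (zt p g h z * sg e s)) s ∧
      (∀ l, ¬ Cl ((p i)⁻¹ * (zt p g h z * sg e s)) ((p l)⁻¹ * s)) ∧
      ¬ Cl ((p i)⁻¹ * (zt p g h z * sg e s)) (g⁻¹ * s) := by
  -- at most two guards have the class of `g⁻¹ s`
  have two : ∀ u : G, ∀ i j k : Fin 9, i ≠ j → i ≠ k → j ≠ k → Cl ((p i)⁻¹ * u) (g⁻¹ * s) →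
      Cl ((p j)⁻¹ * u) (g⁻¹ * s) → Cl ((p k)⁻¹ * u) (g⁻¹ * s) → False := by
    intro u i j k hij hik hjk h1 h2 h3
    have key : ∀ i : Fin 9, Cl ((p i)⁻¹ * u) (g⁻¹ * s) → p i = u * (g⁻¹ * s)⁻¹ ∨
        p i = u * (g⁻¹ * s) := by
      rintro i (h4 | h4)
      · left
        rw [← h4]
        group
      · right
        have : (g⁻¹ * s) = ((p i)⁻¹ * u)⁻¹ := by rw [h4, inv_inv]
        rw [this]
        group
    have inj := hs.p_inj
    rcases key i h1 with a | a <;> rcases key j h2 with b | b <;> rcases key k h3 with c | c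
    · exact hij (inj (a.trans b.symm))
    · exact hij (inj (a.trans b.symm))
    · exact hik (inj (a.trans c.symm))
    · exact hjk (inj (b.trans c.symm))
    · exact hjk (inj (b.trans c.symm))
    · exact hik (inj (a.trans c.symm))
    · exact hij (inj (a.trans b.symm))
    · exact hij (inj (a.trans b.symm))
  rcases z with _ | (j | w)
  · -- the inverse of `s`
    cases e
    · have hu' : s * s ≠ 1 := by
        intro h1
        apply hu
        simp only [zt, sg, one_mul]
        exact inv_eq_of_mul_eq_one_left h1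
      have h1 : ∃ i : Fin 9, (i : ℕ) < 6 ∧ s * p i * s⁻¹ ≠ (p i)⁻¹ := by
        by_contra h2
        push Not at h2
        exact hs.iv (mem_filter.2 ⟨mem_univ _, hu', h2⟩)
      obtain ⟨i, hi, hi'⟩ := h1
      refine ⟨i, hi, ?_, ?_, ?_⟩
      · have := Bd_right (hs.a i)
        simpa [zt, sg] using this
      · intro l
        by_cases hil : i = l
        · subst hil
          rintro (h2 | h2)
          · simp only [zt, sg, one_mul] at h2
            apply hu'
            have h3 : s⁻¹ = s := mul_left_cancel h2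
            nth_rewrite 1 [← h3]
            group
          · simp only [zt, sg, one_mul, mul_inv_rev, inv_inv] at h2
            apply hi'
            have h3 : (p i)⁻¹ * s⁻¹ = s⁻¹ * p i := h2
            have h4 : s * p i * s⁻¹ = s * (s * ((p i)⁻¹ * s⁻¹)) * s⁻¹ := by
              rw [h3]
              group
            have h5 : p i = s * ((p i)⁻¹ * s⁻¹) := by
              rw [h3]
              group
            have h6 : (p i)⁻¹ = s * p i * s⁻¹ := by
              have h7 : (p i)⁻¹ = s⁻¹ * p i * s := by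
                rw [← h3]
                group
              have h8 : p i = (s⁻¹ * p i * s)⁻¹ := by rw [← h7, inv_inv]
              have h9 : p i = s⁻¹ * (p i)⁻¹ * s := by
                nth_rewrite 1 [h8]
                group
              have h10 : s * p i * s⁻¹ = s * (s⁻¹ * (p i)⁻¹ * s) * s⁻¹ := by rw [← h9]
              rw [h10]
              group
            exact h6.symm
        · have := Bd_right (hs.b i l hil)
          simpa [zt, sg] using this
      · have := Bd_right (hs.n i)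
        simpa [zt, sg] using this
    · exact absurd (by simp [zt, sg]) hu
  · -- a base point
    set u := zt p g h (some (Sum.inl j)) * sg e s with hudef
    have good : ∀ i : Fin 9, i ≠ j → ¬ Cl ((p i)⁻¹ * u) s ∧
        ∀ l, ¬ Cl ((p i)⁻¹ * u) ((p l)⁻¹ * s) := by
      intro i hij
      refine ⟨?_, fun l => ?_⟩
      · have := Bd_sg (hs.c i j hij) e
        rwa [one_mul, mul_assoc] at this
      · have := Bd_sg (hs.d i j l hij) e
        rwa [mul_assoc] at this
    by_contra hcon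
    push Not at hcon
    have h1 : ∀ i : Fin 9, (i : ℕ) < 6 → i ≠ j → Cl ((p i)⁻¹ * u) (g⁻¹ * s) :=
      fun i hi hij => hcon i hi (good i hij).1 (good i hij).2
    have h2 : ∃ i₁ i₂ i₃ : Fin 9, (i₁ : ℕ) < 6 ∧ (i₂ : ℕ) < 6 ∧ (i₃ : ℕ) < 6 ∧ i₁ ≠ j ∧ i₂ ≠ j ∧
        i₃ ≠ j ∧ i₁ ≠ i₂ ∧ i₁ ≠ i₃ ∧ i₂ ≠ i₃ := three_guards j
    obtain ⟨i₁, i₂, i₃, a1, a2, a3, a4, a5, a6, a7, a8, a9⟩ := h2
    exact two u i₁ i₂ i₃ a7 a8 a9 (h1 _ a1 a4) (h1 _ a2 a5) (h1 _ a3 a6)
  · -- `g` or `h`
    set u := zt p g h (some (Sum.inr w)) * sg e s with hudef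
    have good : ∀ i : Fin 9, ¬ Cl ((p i)⁻¹ * u) s ∧ ∀ l, ¬ Cl ((p i)⁻¹ * u) ((p l)⁻¹ * s) := by
      intro i
      have hw : zt p g h (some (Sum.inr w)) = g ∨ zt p g h (some (Sum.inr w)) = h := by
        cases w
        · exact Or.inr rfl
        · exact Or.inl rfl
      refine ⟨?_, fun l => ?_⟩
      · have := Bd_sg (hs.k _ hw i) e
        rwa [one_mul, mul_assoc] at this
      · have := Bd_sg (hs.m _ hw i l) e
        rwa [mul_assoc] at this
    by_contra hcon
    push Not at hcon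
    have h1 : ∀ i : Fin 9, (i : ℕ) < 6 → Cl ((p i)⁻¹ * u) (g⁻¹ * s) :=
      fun i hi => hcon i hi (good i).1 (good i).2
    exact two u 0 1 2 (by decide) (by decide) (by decide) (h1 0 (by decide)) (h1 1 (by decide))
      (h1 2 (by decide))

end

end Pool.Agent.K4H90.RU
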