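import Pool.Agent.K4H90.RU.Flip

/-!
# The effect of a bit on the counts, main step
-/

set_option autoImplicit false
set_option linter.unusedSectionVars false

namespace Pool.Agent.K4H90.RU

open Finset Pool.Agent.K4H90.RC

variable {G : Type} [Group G] [Fintype G] [DecidableEq G]

section

variable {p : Fin 9 → G} {g h s : G}

theorem ev_closed (ι : Ix) : ∃ ι', ev p g h ι' s = (ev p g h ι s)⁻¹ := by
  rcases ι with ⟨z, f⟩ | ⟨i, z, e, f⟩
  · refine ⟨Sum.inl (z, !f), ?_⟩
    rw [ev_inl, ev_inl, sg_inv]
  · refine ⟨Sum.inr (i, z, e, !f), ?_⟩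
    rw [ev_inr, ev_inr, sg_inv]

/-- The bits of the classes of the environment. -/
theorem env_cs {b : G → Bool} {j : ℕ} (hb : ∀ y ∈ EU p g h s, b y = decide (On p g j s y))
    (ι : Ix) {y : G} (hy : ev p g h ι s = y) (hys : ¬ Cl y s) :
    cs b y = decide (On p g j s y) := by
  obtain ⟨ι', hι'⟩ := ev_closed (p := p) (g := g) (h := h) (s := s) ι
  rw [hy] at hι'
  have h1 : y ∈ EU p g h s := mem_erase.2 ⟨fun h2 => hys (Or.inl h2), mem_image.2
    ⟨ι, mem_univ _, hy⟩⟩
  have h2 : y⁻¹ ∈ EU p g h s := mem_erase.2 ⟨fun h2 => hys (Or.inr (by rw [← h2, inv_inv])),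
    mem_image.2 ⟨ι', mem_univ _, hι'⟩⟩
  unfold cs
  rw [hb _ h1, hb _ h2]
  simp only [On_inv, Bool.or_self]

theorem cs_update_ne {b : G → Bool} {v : Bool} {y : G} (hys : ¬ Cl y s) :
    cs (Function.update b s v) y = cs b y := by
  unfold cs
  rw [Function.update_of_ne fun h1 => hys (Or.inl h1),
    Function.update_of_ne fun h1 => hys (Or.inr (by rw [← h1, inv_inv]))]

theorem cs_update_true {b : G → Bool} : cs (Function.update b s true) s = true := by
  unfold cs
  rw [Function.update_self]
  rfl

theorem On_pi (hs : Us p g h s) {j : ℕ} (i : Fin 9) : On p g j s ((p i)⁻¹ * s) ↔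
    pt j i = true := by
  constructor
  · rintro (⟨i', h1, h2⟩ | h2)
    · by_cases hi : i = i'
      · rw [hi]
        exact h1
      · exact absurd h2 (hs.pi_pl hi)
    · exact absurd h2.symm (hs.w_pl (Or.inl rfl) i)
  · exact fun h1 => Or.inl ⟨i, h1, Cl.refl _⟩

theorem not_On_s (hs : Us p g h s) {j : ℕ} : ¬ On p g j s s := by
  rintro (⟨i', h1, h2⟩ | h2)
  · exact hs.pi_s i' h2.symm
  · exact hs.w_s (Or.inl rfl) h2.symm

theorem not_On_h (hs : Us p g h s) {j : ℕ} : ¬ On p g j s (h⁻¹ * s) := by
  rintro (⟨i', h1, h2⟩ | h2)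
  · exact hs.w_pl (Or.inr rfl) i' h2
  · exact hs.gh h2.symm

theorem cs_update_false (hs : Us p g h s) {b : G → Bool} {j : ℕ}
    (hb : ∀ y ∈ EU p g h s, b y = decide (On p g j s y)) :
    cs (Function.update b s false) s = false := by
  unfold cs
  rw [Function.update_self, Bool.false_or]
  by_cases h1 : s⁻¹ = s
  · rw [h1, Function.update_self]
  · rw [Function.update_of_ne h1]
    have h2 : s⁻¹ ∈ EU p g h s := by
      refine mem_erase.2 ⟨h1, mem_image.2 ⟨Sum.inl (none, false), mem_univ _, ?_⟩⟩
      rw [ev_inl]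
      simp [zt, sg]
    rw [hb _ h2, decide_eq_false_iff_not, On_inv]
    exact not_On_s hs

/-- The vertices touched by the flip. -/
def Tc (p : Fin 9 → G) (g h s u : G) : Prop := ∃ z e, u = zt p g h z * sg e s

theorem not_Cl_of_not_Tc {u : G} (hu : ¬ Tc p g h s u) (z : Option (Fin 9 ⊕ Bool)) :
    ¬ Cl ((zt p g h z)⁻¹ * u) s := by
  rintro (h1 | h1)
  · apply hu
    refine ⟨z, true, ?_⟩
    show u = zt p g h z * s
    rw [← h1, mul_inv_cancel_left]
  · apply hu
    refine ⟨z, false, ?_⟩
    show u = zt p g h z * s⁻¹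
    rw [← h1, mul_inv_cancel_left]

/-- The signature of a touched vertex is dead. -/
theorem dead (hs : Us p g h s) {b : G → Bool} {j : ℕ}
    (hb : ∀ y ∈ EU p g h s, b y = decide (On p g j s y)) {u : G} (hu : Tc p g h s u)
    (hus : u ≠ s) (v : Bool) (j' : ℕ) : ¬ Sgn p (Function.update b s v) j' u := by
  obtain ⟨z, e, rfl⟩ := hu
  obtain ⟨i, hi, h1, h2, h3⟩ := hs.guard z e hus
  intro h4
  have h5 := h4.2 i
  rw [pt_guard j' hi, cs_update_ne h1, env_cs hb (Sum.inr (i, z, e, true)) (by
    rw [ev_inr]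
    simp [sg, mul_assoc]) h1, decide_eq_true_iff] at h5
  rcases h5 with ⟨l, -, h6⟩ | h6
  · exact h2 l h6
  · exact h3 h6

/-- The difference of the counts. -/
def DU (p : Fin 9 → G) (g h : G) (j : ℕ) (b : G → Bool) : ℤ := TT p g j b - TT p h j b

theorem TT_flip (hs : Us p g h s) {b : G → Bool} {j : ℕ}
    (hb : ∀ y ∈ EU p g h s, b y = decide (On p g j s y)) {w : G} (hw : w = g ∨ w = h) (j' : ℕ) :
    TT p w j' (Function.update b s true) = TT p w j' (Function.update b s false) +
      if (∀ i, pt j i = pt j' i) ∧ w = g then 1 else 0 := by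
  have hwz : ∃ z, zt p g h z = w := by
    rcases hw with rfl | rfl
    · exact ⟨some (Sum.inr true), rfl⟩
    · exact ⟨some (Sum.inr false), rfl⟩
  obtain ⟨zw, hzw⟩ := hwz
  have key : ∀ u ∈ univ.erase s,
      (if Sgn p (Function.update b s true) j' u ∧ cs (Function.update b s true) (w⁻¹ * u) = true
        then (1 : ℤ) else 0) =
      if Sgn p (Function.update b s false) j' u ∧ cs (Function.update b s false) (w⁻¹ * u) = true
        then 1 else 0 := by
    intro u hu
    have hus := (mem_erase.1 hu).1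
    by_cases ht : Tc p g h s u
    · rw [if_neg fun h1 => dead hs hb ht hus _ _ h1.1,
        if_neg fun h1 => dead hs hb ht hus _ _ h1.1]
    · have h0 := not_Cl_of_not_Tc ht
      have h1 : ¬ Cl u s := by
        have := h0 none
        simpa [zt] using this
      have h2 : ∀ i, ¬ Cl ((p i)⁻¹ * u) s := fun i => h0 (some (Sum.inl i))
      have h3 : ¬ Cl (w⁻¹ * u) s := by
        have := h0 zw
        rwa [hzw] at this
      have h4 : ∀ v, Sgn p (Function.update b s v) j' u ↔ Sgn p b j' u := by
        intro v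
        unfold Sgn
        rw [cs_update_ne h1]
        refine and_congr_right fun _ => forall_congr' fun i => ?_
        rw [cs_update_ne (h2 i)]
      simp only [h4, cs_update_ne h3]
  unfold TT
  rw [← add_sum_erase _ _ (mem_univ s), ← add_sum_erase univ (fun u =>
    if Sgn p (Function.update b s false) j' u ∧ cs (Function.update b s false) (w⁻¹ * u) = true
        then (1 : ℤ) else 0) (mem_univ s), sum_congr rfl key]
  have h1 : ¬ Sgn p (Function.update b s false) j' s := by
    intro h2
    have := h2.1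
    rw [cs_update_false hs hb] at this
    exact absurd this (by decide)
  have h2 : Sgn p (Function.update b s true) j' s ↔ ∀ i, pt j i = pt j' i := by
    unfold Sgn
    rw [cs_update_true]
    simp only [true_and]
    refine forall_congr' fun i => ?_
    rw [cs_update_ne (hs.pi_s i), env_cs hb (Sum.inl (some (Sum.inl i), true)) (by
      rw [ev_inl]
      rfl) (hs.pi_s i)]
    have h3 : decide (On p g j s ((p i)⁻¹ * s)) = pt j i := by
      have := On_pi (j := j) hs i
      cases h4 : pt j i
      · rw [decide_eq_false_iff_not, this, h4]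
        decide
      · rw [decide_eq_true_iff, this, h4]
    rw [h3]
  have h3 : cs (Function.update b s true) (w⁻¹ * s) = true ↔ w = g := by
    rw [cs_update_ne (hs.w_s hw)]
    have h4 : cs b (w⁻¹ * s) = decide (On p g j s (w⁻¹ * s)) := by
      refine env_cs hb (Sum.inl (zw, true)) ?_ (hs.w_s hw)
      rw [ev_inl, hzw]
      rfl
    rw [h4, decide_eq_true_iff]
    constructor
    · intro h5
      rcases hw with h6 | h6
      · exact h6
      · rw [h6] at h5
        exact absurd h5 (not_On_h hs)
    · intro h5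
      rw [h5]
      exact Or.inr (Cl.refl _)
  have h4 : (if Sgn p (Function.update b s false) j' s ∧
      cs (Function.update b s false) (w⁻¹ * s) = true then (1 : ℤ) else 0) = 0 :=
    if_neg fun h4 => h1 h4.1
  rw [h4]
  simp only [h2, h3]
  ring

theorem DU_flip (hs : Us p g h s) {b : G → Bool} {j j' : ℕ} (hj : j < 5) (hj' : j' < 5)
    (hb : ∀ y ∈ EU p g h s, b y = decide (On p g j s y)) :
    DU p g h j' (Function.update b s true) = DU p g h j' (Function.update b s false) +
      if j = j' then 1 else 0 := by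
  have hgh : g ≠ h := by
    rintro rfl
    exact hs.gh (Cl.refl _)
  have h1 := TT_flip hs hb (Or.inl rfl) j'
  have h2 := TT_flip hs hb (Or.inr rfl) j'
  unfold DU
  rw [h1, h2, if_neg (c := (∀ i, pt j i = pt j' i) ∧ h = g) fun h3 => hgh h3.2.symm]
  by_cases hjj : j = j'
  · rw [if_pos ⟨fun i => by rw [hjj], rfl⟩, if_pos hjj]
    ring
  · rw [if_neg fun h3 => hjj (pt_inj hj hj' h3.1), if_neg hjj]
    ring

end

end Pool.Agent.K4H90.RU
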