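import Pool.Agent.K4H90.RU.Flip2

/-!
# The probability that two elements have the same counts
-/

set_option autoImplicit false
set_option linter.unusedSectionVars false

namespace Pool.Agent.K4H90.RU

open Finset Pool.Agent.K4H90.RC

/-- Five counts. -/
theorem pairU (ε : ℝ) (hε : 0 < ε) (hε2 : 2 * ε ≤ 1) : ∃ C : ℝ, 0 < C ∧
    ∀ (G : Type) [Group G] [Fintype G] [DecidableEq G] (q : G → ℝ) (_ : Pr q)
      (_ : ∀ x, x ≠ 1 → ε ≤ q x ∧ q x ≤ 1 - ε) (p : Fin 9 → G) (_ : Gen 300000 p)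
      (_ : 16 * (Iv p).card ≤ 3 * Fintype.card G) (_ : 30000 ≤ Fintype.card G) (g h : G)
      (_ : Gd 300000 p g) (_ : Gd 300000 p h) (_ : g ≠ h),
      Pb q (fun b => ∀ j < 5, DU p g h j b = 0) ≤ C / (Real.sqrt (Fintype.card G + 1)) ^ 5 := by
  classical
  obtain ⟨C, hC, hmain⟩ := tri_num ε hε hε2 456 5
  refine ⟨C * (Real.sqrt (6683200 : ℕ)) ^ 5, by positivity, ?_⟩
  intro G _ _ _ q hq hqε p hp hI hn g h hg hh hgh
  set S : Finset G := univ.filter fun s => Us p g h s with hS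
  have hScard : Fintype.card G ≤ 32 * S.card := many_Us hp hI hn hg hh hgh
  obtain ⟨P, hP, hP1, hP2, hP3⟩ := select (ev p g h) (EU p g h)
    (fun s y hy => by
      obtain ⟨i, -, hi⟩ := mem_image.1 (mem_erase.1 hy).2
      exact ⟨i, hi⟩) S (fun s _ h1 => (mem_erase.1 h1).1 rfl)
  have hι : 2 * Fintype.card Ix + Fintype.card Ix * Fintype.card Ix + 1 = 208849 := by
    simp [Ix]
  rw [hι] at hP3
  have hU : ∀ s ∈ P, Us p g h s := fun s hs => (mem_filter.1 (hP hs)).2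
  have h4 := hmain G q hq P (EU p g h) hP1 hP2
    (fun s _ => by
      refine (card_le_card (erase_subset _ _)).trans (card_image_le.trans ?_)
      simp [Ix])
    (fun s hs => hqε s (by
      have := (hU s hs).one (Sum.inl (none, true))
      rw [ev_inl] at this
      simpa [zt, sg] using this))
    (fun s hs x hx => hqε x (by
      obtain ⟨i, -, hi⟩ := mem_image.1 (mem_erase.1 hx).2
      rw [← hi]
      exact (hU s hs).one i))
    (fun j s y => decide (On p g j s y)) (DU p g h) (fun _ => 1)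
    (fun _ _ => by norm_num)
    (by
      intro j hj s hs b hb
      have := DU_flip (hU s hs) hj hj hb
      rwa [if_pos rfl] at this)
    (by
      intro j hj s hs b hb j' hjj hj'
      have := DU_flip (hU s hs) hj hj' hb
      rwa [if_neg (by omega), add_zero] at this)
  refine h4.trans (sqrt_ratio ?_ 5 hC)
  omega

/-- All pairs. -/
theorem allU (ε : ℝ) (hε : 0 < ε) (hε2 : 2 * ε ≤ 1) : ∃ C : ℝ, 0 < C ∧
    ∀ (G : Type) [Group G] [Fintype G] [DecidableEq G] (q : G → ℝ) (_ : Pr q)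
      (_ : ∀ x, x ≠ 1 → ε ≤ q x ∧ q x ≤ 1 - ε) (p : Fin 9 → G) (_ : Gen 300000 p)
      (_ : 16 * (Iv p).card ≤ 3 * Fintype.card G) (_ : 30000 ≤ Fintype.card G),
      Pb q (fun b => ∃ g h, Gd 300000 p g ∧ Gd 300000 p h ∧ g ≠ h ∧ ∀ j < 5, DU p g h j b = 0) ≤
        C / Real.sqrt (Fintype.card G + 1) := by
  classical
  obtain ⟨C, hC, hmain⟩ := pairU ε hε hε2
  refine ⟨C, hC, ?_⟩
  intro G _ _ _ q hq hqε p hp hI hn
  set n := Fintype.card G with hn'
  have hn0 : (0 : ℝ) < (n : ℝ) + 1 := by positivity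
  have hsq : 0 < Real.sqrt ((n : ℝ) + 1) := Real.sqrt_pos.2 hn0
  set Z : Finset (G × G) := univ.filter fun z => Gd 300000 p z.1 ∧ Gd 300000 p z.2 ∧ z.1 ≠ z.2
    with hZ
  have h1 : Pb q (fun b => ∃ g h, Gd 300000 p g ∧ Gd 300000 p h ∧ g ≠ h ∧
      ∀ j < 5, DU p g h j b = 0) ≤ ∑ z ∈ Z, Pb q (fun b => ∀ j < 5, DU p z.1 z.2 j b = 0) := by
    refine le_trans (Pb_mono hq fun b hb => ?_) (Pb_exists hq _ _)
    obtain ⟨g, h, h4, h5, h6, h7⟩ := hb
    exact ⟨(g, h), mem_filter.2 ⟨mem_univ _, h4, h5, h6⟩, h7⟩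
  have h2 : ∑ z ∈ Z, Pb q (fun b => ∀ j < 5, DU p z.1 z.2 j b = 0) ≤
      ∑ _z ∈ Z, C / (Real.sqrt (n + 1)) ^ 5 := by
    refine sum_le_sum fun z hz => ?_
    obtain ⟨-, h4, h5, h6⟩ := mem_filter.1 hz
    exact hmain G q hq hqε p hp hI hn z.1 z.2 h4 h5 h6
  refine h1.trans (h2.trans ?_)
  rw [sum_const, nsmul_eq_mul]
  have h3 : (Z.card : ℝ) ≤ ((n : ℝ) + 1) ^ 2 := by
    have h4 : Z.card ≤ n * n := by
      refine (card_le_univ _).trans ?_
      rw [Fintype.card_prod]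
    have h5 : (Z.card : ℝ) ≤ n * n := by exact_mod_cast h4
    have h6 : (0 : ℝ) ≤ n := by positivity
    nlinarith
  have h4 : ((n : ℝ) + 1) ^ 2 = (Real.sqrt (n + 1)) ^ 4 := by
    have : (Real.sqrt ((n : ℝ) + 1)) ^ 4 = ((Real.sqrt (n + 1)) ^ 2) ^ 2 := by ring
    rw [this, Real.sq_sqrt hn0.le]
  calc (Z.card : ℝ) * (C / (Real.sqrt (n + 1)) ^ 5) ≤
      (Real.sqrt (n + 1)) ^ 4 * (C / (Real.sqrt (n + 1)) ^ 5) := by
        rw [← h4]
        exact mul_le_mul_of_nonneg_right h3 (by positivity)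
    _ = _ := by field_simp

/-! ### Separation -/

section

variable {X : Type} [Fintype X] [DecidableEq X]

/-- Elements with disjoint environments. -/
theorem select' {ι : Type} [Fintype ι] (φ : ι → X ≃ X) (E : X → Finset X)
    (hE : ∀ s, ∀ y ∈ E s, ∃ i, φ i s = y) (S : Finset X) :
    ∃ P ⊆ S, (∀ s ∈ P, ∀ s' ∈ P, s ≠ s' → Disjoint (E s) (E s')) ∧
      S.card ≤ (Fintype.card ι * Fintype.card ι + 1) * P.card := by
  classical
  obtain ⟨P, hP, h1, h2⟩ := indep (fun s => univ.filter fun s' => ¬ Disjoint (E s) (E s'))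
    (fun s s' h => mem_filter.2 ⟨mem_univ _, fun h4 => (mem_filter.1 h).2 h4.symm⟩)
    (Fintype.card ι * Fintype.card ι) (fun s => by
      have h1 : (univ.filter fun s' => ¬ Disjoint (E s) (E s')) ⊆
          univ.image fun x : ι × ι => (φ x.2).symm (φ x.1 s) := by
        intro s' hs'
        have h := (mem_filter.1 hs').2
        rw [not_disjoint_iff] at h
        obtain ⟨y, h2, h3⟩ := h
        obtain ⟨i, hi⟩ := hE _ _ h2
        obtain ⟨j, hj⟩ := hE _ _ h3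
        refine mem_image.2 ⟨(i, j), mem_univ _, ?_⟩
        show (φ j).symm (φ i s) = s'
        rw [hi, ← hj, Equiv.symm_apply_apply]
      refine (card_le_card h1).trans (card_image_le.trans (le_of_eq ?_))
      rw [card_univ, Fintype.card_prod]) S.card S le_rfl
  refine ⟨P, hP, fun s hs s' hs' hss => ?_, h2⟩
  by_contra h
  exact h1 s hs s' hs' hss (mem_filter.2 ⟨mem_univ _, h⟩)

end

section

variable {G : Type} [Group G] [Fintype G] [DecidableEq G]

/-- The vertices which separate `x` and `y`. -/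
def SepU (x y : G) (b : G → Bool) : Finset G :=
  univ.filter fun u => cs b (u⁻¹ * x) ≠ cs b (u⁻¹ * y)

theorem few_sepU {ε : ℝ} (hε0 : 0 ≤ ε) (hε1 : ε ≤ 1) {q : G → ℝ} (hq : Pr q)
    (hqε : ∀ x, x ≠ 1 → ε ≤ q x ∧ q x ≤ 1 - ε) {x y : G} (hxy : x ≠ y) (k m : ℕ)
    (hk : 68 * k + 8 ≤ Fintype.card G) :
    Pb q (fun b => (SepU x y b).card < m) ≤ 2 ^ m * (1 - ε ^ 4 / 2) ^ k := by
  set S := (univ : Finset G).filter fun u => ¬ Cl (u⁻¹ * x) (u⁻¹ * y) ∧ u ≠ x ∧ u ≠ y with hS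
  have hScard : Fintype.card G ≤ S.card + (Sq (y⁻¹ * x)).card + 2 := by
    have h2 : (univ : Finset G) ⊆ S ∪ ((Sq (y⁻¹ * x)).image fun t => y * t) ∪ {x, y} := by
      intro u _
      by_cases h3 : Cl (u⁻¹ * x) (u⁻¹ * y)
      · refine mem_union_left _ (mem_union_right _ (mem_image.2 ⟨y⁻¹ * u, mem_Sq.2 ?_, by group⟩))
        rcases h3 with h3 | h3
        · exact absurd (mul_left_cancel h3) hxy
        · have h4 : y⁻¹ * u = u⁻¹ * x := by
            rw [h3]
            group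
          nth_rewrite 2 [h4]
          group
      · by_cases h4 : u = x
        · exact mem_union_right _ (by rw [h4]; exact mem_insert_self _ _)
        · by_cases h5 : u = y
          · exact mem_union_right _ (by rw [h5]; exact mem_insert_of_mem (mem_singleton_self _))
          · exact mem_union_left _ (mem_union_left _ (mem_filter.2 ⟨mem_univ _, h3, h4, h5⟩))
    have h3 := card_le_card h2
    have h4 := card_union_le (S ∪ ((Sq (y⁻¹ * x)).image fun t => y * t)) {x, y}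
    have h5 := card_union_le S ((Sq (y⁻¹ * x)).image fun t => y * t)
    have h6 : ((Sq (y⁻¹ * x)).image fun t => y * t).card ≤ _ := card_image_le
    have h7 : ({x, y} : Finset G).card ≤ 2 := card_le_two
    rw [card_univ] at h3
    omega
  have hc : y⁻¹ * x ≠ 1 := fun h1 => hxy (inv_mul_eq_one.1 h1).symm
  have hSq := Sq_card hc
  let φ : Bool × Bool → G ≃ G := fun i =>
    ((Equiv.inv G).trans (Equiv.mulRight (if i.1 then x else y))).trans (sgE i.2)
  have hφ : ∀ i u, φ i u = sg i.2 (u⁻¹ * if i.1 then x else y) := by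
    intro i u
    simp only [φ, Equiv.trans_apply, Equiv.inv_apply, Equiv.coe_mulRight, sgE_apply]
  obtain ⟨P, hP, hP1, hP2⟩ := select' φ (fun u => univ.image fun i => φ i u)
    (fun s y hy => by
      obtain ⟨i, -, hi⟩ := mem_image.1 hy
      exact ⟨i, hi⟩) S
  have hι : Fintype.card (Bool × Bool) * Fintype.card (Bool × Bool) + 1 = 17 := by simp
  rw [hι] at hP2
  have hPk : k ≤ P.card := by omega
  have h2 := At_few (p := q) hq hε0 hε1 (P := P) (E := fun u => univ.image fun i => φ i u) hP1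
    (K := 4) (fun t _ => card_image_le.trans (by simp)) (by
      intro u hu z hz
      obtain ⟨-, h4, h5, h6⟩ := mem_filter.1 (hP hu)
      obtain ⟨i, -, rfl⟩ := mem_image.1 hz
      refine hqε _ ?_
      rw [hφ]
      intro h7
      have h8 : (u⁻¹ * if i.1 then x else y) = 1 := by
        cases h9 : i.2
        · rw [h9] at h7
          exact inv_eq_one.1 h7
        · rw [h9] at h7
          exact h7
      split_ifs at h8
      · exact h5 (inv_mul_eq_one.1 h8)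
      · exact h6 (inv_mul_eq_one.1 h8)) (fun u z => decide (Cl z (u⁻¹ * x))) m
  have h3 : Pb q (fun b => (SepU x y b).card < m) ≤
      Pb q (fun b => (At P (fun u => univ.image fun i => φ i u)
        (fun u z => decide (Cl z (u⁻¹ * x))) b).card < m) := by
    refine Pb_mono hq fun b hb => lt_of_le_of_lt (card_le_card fun u hu => ?_) hb
    obtain ⟨h4, h5⟩ := mem_filter.1 hu
    obtain ⟨-, h6, h7, h8⟩ := mem_filter.1 (hP h4)
    refine mem_filter.2 ⟨mem_univ _, ?_⟩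
    have h9 : cs b (u⁻¹ * x) = true := by
      unfold cs
      have e0 : b (u⁻¹ * x) = decide (Cl (u⁻¹ * x) (u⁻¹ * x)) :=
        h5 (u⁻¹ * x) (mem_image.2 ⟨(true, true), mem_univ _, by rw [hφ]; rfl⟩)
      rw [e0, decide_eq_true (Cl.refl _)]
      rfl
    have h10 : cs b (u⁻¹ * y) = false := by
      unfold cs
      have e1 : b (u⁻¹ * y) = decide (Cl (u⁻¹ * y) (u⁻¹ * x)) :=
        h5 (u⁻¹ * y) (mem_image.2 ⟨(false, true), mem_univ _, by rw [hφ]; rfl⟩)
      have e2 : b (u⁻¹ * y)⁻¹ = decide (Cl (u⁻¹ * y)⁻¹ (u⁻¹ * x)) :=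
        h5 (u⁻¹ * y)⁻¹ (mem_image.2 ⟨(false, false), mem_univ _, by rw [hφ]; rfl⟩)
      have f1 : ¬ Cl (u⁻¹ * y) (u⁻¹ * x) := fun h => h6 h.symm
      have f2 : ¬ Cl (u⁻¹ * y)⁻¹ (u⁻¹ * x) := by
        intro h
        have := h.inv_left
        rw [inv_inv] at this
        exact h6 this.symm
      rw [e1, e2, decide_eq_false f1, decide_eq_false f2]
      rfl
    rw [h9, h10]
    decide
  refine h3.trans (h2.trans (mul_le_mul_of_nonneg_left ?_ (by positivity)))
  have h6 : 0 ≤ ε ^ 4 / 2 := by positivity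
  have h7 : ε ^ 4 ≤ 1 := pow_le_one₀ hε0 hε1
  exact pow_le_pow_of_le_one (by linarith) (by linarith) hPk

end

/-- All pairs are separated. -/
theorem all_sepU (ε : ℝ) (hε : 0 < ε) (hε2 : 2 * ε ≤ 1) (m : ℕ) : ∃ C : ℝ, 0 < C ∧
    ∀ (G : Type) [Group G] [Fintype G] [DecidableEq G] (q : G → ℝ) (_ : Pr q)
      (_ : ∀ x, x ≠ 1 → ε ≤ q x ∧ q x ≤ 1 - ε) (_ : 8 ≤ Fintype.card G),
      Pb q (fun b => ∃ x y, x ≠ y ∧ (SepU x y b).card < m) ≤
        C / Real.sqrt (Fintype.card G + 1) := by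
  classical
  set ρ : ℝ := 1 - ε ^ 4 / 2 with hρ
  have hε4 : 0 < ε ^ 4 := by positivity
  have hε41 : ε ^ 4 ≤ 1 := pow_le_one₀ hε.le (by linarith)
  have hρ1 : ρ < 1 := by rw [hρ]; linarith
  have hρ0 : 0 < ρ := by rw [hρ]; linarith
  obtain ⟨B, hB⟩ : ∃ B : ℝ, ∀ M : ℕ, (M : ℝ) ^ 3 * ρ ^ M ≤ B := by
    have h1 : Filter.Tendsto (fun M : ℕ => (M : ℝ) ^ 3 * ρ ^ M) Filter.atTop (nhds 0) :=
      tendsto_pow_const_mul_const_pow_of_lt_one 3 hρ0.le hρ1
    obtain ⟨B, hB⟩ := h1.bddAbove_range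
    exact ⟨B, fun M => hB ⟨M, rfl⟩⟩
  have hB0 : 0 ≤ B := le_trans (by positivity) (hB 1)
  refine ⟨2 ^ m * 78 ^ 3 * (B / ρ) + 1, by positivity, ?_⟩
  intro G _ _ _ q hq hqε h8
  set n := Fintype.card G with hn
  have hn0 : (0 : ℝ) < (n : ℝ) + 1 := by positivity
  have hsq : 0 < Real.sqrt ((n : ℝ) + 1) := Real.sqrt_pos.2 hn0
  set k := (n - 8) / 68 with hk
  have hk1 : 68 * k + 8 ≤ n := by
    have := Nat.mul_div_le (n - 8) 68
    omega
  have hk2 : n + 1 ≤ 78 * (k + 1) := by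
    have := Nat.lt_mul_div_succ (n - 8) (show 0 < 68 by norm_num)
    omega
  have hk3 : (n : ℝ) + 1 ≤ 78 * (k + 1) := by exact_mod_cast hk2
  have h1 : Pb q (fun b => ∃ x y, x ≠ y ∧ (SepU x y b).card < m) ≤
      ∑ z ∈ (univ : Finset (G × G)).filter (fun z => z.1 ≠ z.2),
        Pb q (fun b => (SepU z.1 z.2 b).card < m) := by
    refine le_trans (Pb_mono hq fun b hb => ?_) (Pb_exists hq _ _)
    obtain ⟨x, y, h4, h5⟩ := hb
    exact ⟨(x, y), mem_filter.2 ⟨mem_univ _, h4⟩, h5⟩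
  have h2 : ∑ z ∈ (univ : Finset (G × G)).filter (fun z => z.1 ≠ z.2),
        Pb q (fun b => (SepU z.1 z.2 b).card < m) ≤
      ∑ _z ∈ (univ : Finset (G × G)).filter (fun z => z.1 ≠ z.2), 2 ^ m * ρ ^ k :=
    sum_le_sum fun z hz => few_sepU hε.le (by linarith) hq hqε (mem_filter.1 hz).2 k m hk1
  refine h1.trans (h2.trans ?_)
  rw [sum_const, nsmul_eq_mul, le_div_iff₀ hsq]
  have h3 : (((univ : Finset (G × G)).filter (fun z => z.1 ≠ z.2)).card : ℝ) ≤
      ((n : ℝ) + 1) ^ 2 := by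
    have h4 : ((univ : Finset (G × G)).filter (fun z => z.1 ≠ z.2)).card ≤ n * n := by
      refine (card_le_univ _).trans ?_
      rw [Fintype.card_prod]
    have h5 : (((univ : Finset (G × G)).filter (fun z => z.1 ≠ z.2)).card : ℝ) ≤ n * n := by
      exact_mod_cast h4
    have h6 : (0 : ℝ) ≤ n := by positivity
    nlinarith
  have hsqle : Real.sqrt ((n : ℝ) + 1) ≤ n + 1 := by
    rw [Real.sqrt_le_left (by positivity)]
    have : (0 : ℝ) ≤ n := by positivity
    nlinarith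
  have h4 : ((k : ℝ) + 1) ^ 3 * ρ ^ k ≤ B / ρ := by
    rw [le_div_iff₀ hρ0]
    have := hB (k + 1)
    push_cast at this
    calc ((k : ℝ) + 1) ^ 3 * ρ ^ k * ρ = ((k : ℝ) + 1) ^ 3 * ρ ^ (k + 1) := by ring
      _ ≤ B := this
  calc _ ≤ ((n : ℝ) + 1) ^ 2 * (2 ^ m * ρ ^ k) * (n + 1) :=
        mul_le_mul (mul_le_mul_of_nonneg_right h3 (by positivity)) hsqle (by positivity)
          (by positivity)
    _ = 2 ^ m * (((n : ℝ) + 1) ^ 3 * ρ ^ k) := by ring
    _ ≤ 2 ^ m * ((78 * (k + 1)) ^ 3 * ρ ^ k) := by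
        refine mul_le_mul_of_nonneg_left (mul_le_mul_of_nonneg_right
          (pow_le_pow_left₀ (by positivity) hk3 _) (by positivity)) (by positivity)
    _ = 2 ^ m * 78 ^ 3 * (((k : ℝ) + 1) ^ 3 * ρ ^ k) := by ring
    _ ≤ 2 ^ m * 78 ^ 3 * (B / ρ) := mul_le_mul_of_nonneg_left h4 (by positivity)
    _ ≤ _ := by linarith

end Pool.Agent.K4H90.RU
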