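import Pool.Agent.K4H90.RC.Elem2

/-!
# Square roots and coincidences of translated elements in a finite group
-/

set_option autoImplicit false
set_option linter.unusedSectionVars false

namespace Pool.Agent.K4H90.RU

open Finset Pool.Agent.K4H90.RC

variable {G : Type} [Group G] [Fintype G] [DecidableEq G]

/-- The square roots of `c`. -/
def Sq (c : G) : Finset G := univ.filter fun s => s * s = c

theorem mem_Sq {c s : G} : s ∈ Sq c ↔ s * s = c := by simp [Sq]

/-- An element different from `1` has at most `3 n / 4` square roots. -/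
theorem Sq_card {c : G} (hc : c ≠ 1) : 4 * (Sq c).card ≤ 3 * Fintype.card G := by
  by_contra hlt
  push Not at hlt
  have hne : (Sq c).Nonempty := by
    rw [← card_pos]
    omega
  obtain ⟨w, hw⟩ := hne
  have hw' := mem_Sq.1 hw
  set A := (Sq c).filter fun v => w * v ∈ Sq c with hA
  have h1 : Fintype.card G < 2 * A.card := by
    have h2 : (univ.filter fun v => w * v ∈ Sq c).card = (Sq c).card := by
      refine card_bij' (fun v _ => w * v) (fun v _ => w⁻¹ * v) ?_ ?_ ?_ ?_
      · intro v hv
        exact (mem_filter.1 hv).2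
      · intro v hv
        refine mem_filter.2 ⟨mem_univ _, ?_⟩
        rwa [mul_inv_cancel_left]
      · intro v _
        exact inv_mul_cancel_left _ _
      · intro v _
        exact mul_inv_cancel_left _ _
    have h3 := card_union_add_card_inter (Sq c) (univ.filter fun v => w * v ∈ Sq c)
    have h4 : Sq c ∩ (univ.filter fun v => w * v ∈ Sq c) = A := by
      ext v
      simp [hA]
    have h5 : (Sq c ∪ (univ.filter fun v => w * v ∈ Sq c)).card ≤ Fintype.card G := card_le_univ _
    rw [h4, h2] at h3
    omega
  have hinv : ∀ v ∈ A, v * w * v⁻¹ = w⁻¹ := by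
    intro v hv
    obtain ⟨h2, h3⟩ := mem_filter.1 hv
    have h4 := mem_Sq.1 h2
    have h5 := mem_Sq.1 h3
    have h6 : v * w * v = w := by
      have h7 : w * (v * w * v) = w * w := by
        rw [hw', ← h5]
        group
      exact mul_left_cancel h7
    have h8 : v * w = w * v⁻¹ := eq_mul_inv_of_mul_eq h6
    rw [h8, mul_assoc]
    have h9 : v⁻¹ * v⁻¹ = (w * w)⁻¹ := by rw [hw', ← h4, mul_inv_rev]
    rw [h9, mul_inv_rev, mul_inv_cancel_left]
  have hcent : Subgroup.centralizer {w} = (⊤ : Subgroup G) := by
    have hAne : A.Nonempty := by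
      rw [← card_pos]
      omega
    obtain ⟨v₀, hv₀⟩ := hAne
    refine top_of_half _ (A.image fun v => v₀⁻¹ * v) ?_ ?_
    · intro x hx
      obtain ⟨v, hv, rfl⟩ := mem_image.1 hx
      rw [Subgroup.mem_centralizer_singleton_iff]
      have h2 := hinv v hv
      have h3 := hinv v₀ hv₀
      rw [← h3] at h2
      have h4 : v₀⁻¹ * (v * w * v⁻¹) * v₀ = w := by
        rw [h2]
        group
      calc v₀⁻¹ * v * w = v₀⁻¹ * (v * w * v⁻¹) * v₀ * (v₀⁻¹ * v) := by group
        _ = w * (v₀⁻¹ * v) := by rw [h4]
    · rw [card_image_of_injective _ (mul_right_injective _)]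
      exact h1
  have hAne : A.Nonempty := by
    rw [← card_pos]
    omega
  obtain ⟨v₀, hv₀⟩ := hAne
  have h2 : v₀ ∈ Subgroup.centralizer {w} := by
    rw [hcent]
    exact Subgroup.mem_top _
  rw [Subgroup.mem_centralizer_singleton_iff] at h2
  have h3 := hinv v₀ hv₀
  rw [h2, mul_inv_cancel_right] at h3
  apply hc
  rw [← hw']
  nth_rewrite 2 [h3]
  exact mul_inv_cancel _

/-- More than `n / L` square roots. -/
def rich (L : ℕ) (c : G) : Prop := Fintype.card G < L * (Sq c).card

/-- The elements which conjugate `x` to `y`. -/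
def Cj (x y : G) : Finset G := univ.filter fun s => s * x * s⁻¹ = y

theorem mem_Cj {x y s : G} : s ∈ Cj x y ↔ s * x * s⁻¹ = y := by simp [Cj]

open Classical in
theorem few_fibre (L : ℕ) {ι : Type} [Fintype ι] [DecidableEq ι] (f : G → ι) :
    (univ.filter fun c : ι => Fintype.card G < L * (univ.filter fun s => f s = c).card).card ≤ L := by
  classical
  set T := univ.filter fun c : ι => Fintype.card G < L * (univ.filter fun s => f s = c).card with hT
  have h1 : ∑ c ∈ T, Fintype.card G ≤ ∑ c ∈ T, L * (univ.filter fun s => f s = c).card :=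
    sum_le_sum fun c hc => (mem_filter.1 hc).2.le
  have h2 : ∑ c ∈ T, (univ.filter fun s => f s = c).card ≤ Fintype.card G := by
    rw [← card_univ (α := G)]
    rw [← card_biUnion]
    · exact card_le_univ _
    · intro c _ c' _ hcc
      rw [Function.onFun, Finset.disjoint_left]
      intro s hs hs'
      exact hcc ((mem_filter.1 hs).2.symm.trans (mem_filter.1 hs').2)
  rw [sum_const, smul_eq_mul, ← mul_sum] at h1
  have h3 : T.card * Fintype.card G ≤ L * Fintype.card G := h1.trans (Nat.mul_le_mul_left _ h2)
  exact Nat.le_of_mul_le_mul_right h3 Fintype.card_pos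

open Classical in
theorem few_rich (L : ℕ) : (univ.filter fun c : G => rich L c).card ≤ L := by
  refine le_trans (card_le_card fun c hc => ?_) (few_fibre L fun s : G => s * s)
  exact mem_filter.2 ⟨mem_univ _, (mem_filter.1 hc).2⟩

/-- The elements `x s^{±1}` and `y s` coincide up to inversion for many `s`. -/
def Nr (L : ℕ) (x y : G) : Prop :=
  x = y ∨ rich L (x * y⁻¹) ∨ rich L (y⁻¹ * x) ∨ Fintype.card G < L * (Cj x y⁻¹).card

/-- Equal or inverse. -/
def Cl (u v : G) : Prop := u = v ∨ u = v⁻¹

instance (u v : G) : Decidable (Cl u v) := inferInstanceAs (Decidable (_ ∨ _))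

theorem Cl.symm {u v : G} (h : Cl u v) : Cl v u := by
  rcases h with h | h
  · exact Or.inl h.symm
  · exact Or.inr (by rw [h, inv_inv])

theorem Cl.trans {u v w : G} (h : Cl u v) (h' : Cl v w) : Cl u w := by
  rcases h with rfl | rfl
  · exact h'
  · rcases h' with rfl | rfl
    · exact Or.inr rfl
    · exact Or.inl (inv_inv _)

theorem Cl.inv_left {u v : G} (h : Cl u v) : Cl u⁻¹ v := by
  rcases h with rfl | rfl
  · exact Or.inr rfl
  · exact Or.inl (inv_inv _)

theorem Cl.refl (u : G) : Cl u u := Or.inl rfl

/-- The coincidences. -/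
def Bd (x y : G) : Finset G := univ.filter fun s => Cl (x * s) (y * s) ∨ Cl (x * s⁻¹) (y * s)

theorem Bd_card {L : ℕ} {x y : G} (h : ¬ Nr L x y) :
    L * (Bd x y).card ≤ 3 * Fintype.card G := by
  unfold Nr rich at h
  push Not at h
  obtain ⟨h0, h1, h2, h3⟩ := h
  have h4 : Bd x y ⊆ ((Sq (x * y⁻¹)).image fun t => x⁻¹ * t) ∪ Sq (y⁻¹ * x) ∪ Cj x y⁻¹ := by
    intro s hs
    rcases (mem_filter.1 hs).2 with (h5 | h5) | (h5 | h5)
    · exact absurd (mul_right_cancel h5) h0
    · refine mem_union_left _ (mem_union_left _ (mem_image.2 ⟨x * s, mem_Sq.2 ?_, by group⟩))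
      nth_rewrite 2 [h5]
      group
    · refine mem_union_left _ (mem_union_right _ (mem_Sq.2 ?_))
      have h6 : x = y * s * s := by
        rw [← h5]
        group
      nth_rewrite 1 [h6]
      group
    · refine mem_union_right _ (mem_Cj.2 ?_)
      rw [mul_assoc, h5]
      group
  have h5 := (card_le_card h4).trans (card_union_le _ _)
  have h6 := card_union_le ((Sq (x * y⁻¹)).image fun t => x⁻¹ * t) (Sq (y⁻¹ * x))
  have h7 : ((Sq (x * y⁻¹)).image fun t => x⁻¹ * t).card ≤ (Sq (x * y⁻¹)).card := card_image_le
  calc L * (Bd x y).card ≤ L * ((Sq (x * y⁻¹)).card + (Sq (y⁻¹ * x)).card + (Cj x y⁻¹).card) :=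
        Nat.mul_le_mul_left _ (by omega)
    _ = L * (Sq (x * y⁻¹)).card + L * (Sq (y⁻¹ * x)).card + L * (Cj x y⁻¹).card := by ring
    _ ≤ _ := by omega

open Classical in
theorem Nr_left (L : ℕ) (x : G) : (univ.filter fun y => Nr L x y).card ≤ 1 + 3 * L := by
  have h1 : (univ.filter fun y => Nr L x y) ⊆ {x} ∪
      ((univ.filter fun c : G => rich L c).image fun c => c⁻¹ * x) ∪
      ((univ.filter fun c : G => rich L c).image fun c => x * c⁻¹) ∪
      ((univ.filter fun c : G => Fintype.card G <
        L * (univ.filter fun s => s * x * s⁻¹ = c).card).image fun c => c⁻¹) := by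
    intro y hy
    rcases (mem_filter.1 hy).2 with h | h | h | h
    · exact mem_union_left _ (mem_union_left _ (mem_union_left _ (mem_singleton.2 h.symm)))
    · refine mem_union_left _ (mem_union_left _ (mem_union_right _ (mem_image.2
        ⟨x * y⁻¹, mem_filter.2 ⟨mem_univ _, h⟩, by group⟩)))
    · refine mem_union_left _ (mem_union_right _ (mem_image.2
        ⟨y⁻¹ * x, mem_filter.2 ⟨mem_univ _, h⟩, by group⟩))
    · exact mem_union_right _ (mem_image.2 ⟨y⁻¹, mem_filter.2 ⟨mem_univ _, h⟩, inv_inv _⟩)
  have h2 := card_le_card h1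
  have h3 := few_rich (G := G) L
  have h4 := few_fibre L fun s : G => s * x * s⁻¹
  have e1 := card_union_le ({x} ∪
      ((univ.filter fun c : G => rich L c).image fun c => c⁻¹ * x) ∪
      ((univ.filter fun c : G => rich L c).image fun c => x * c⁻¹))
      ((univ.filter fun c : G => Fintype.card G <
        L * (univ.filter fun s => s * x * s⁻¹ = c).card).image fun c => c⁻¹)
  have e2 := card_union_le ({x} ∪
      ((univ.filter fun c : G => rich L c).image fun c => c⁻¹ * x))
      ((univ.filter fun c : G => rich L c).image fun c => x * c⁻¹)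
  have e3 := card_union_le {x} ((univ.filter fun c : G => rich L c).image fun c => c⁻¹ * x)
  have i1 : ((univ.filter fun c : G => rich L c).image fun c => c⁻¹ * x).card ≤ _ := card_image_le
  have i2 : ((univ.filter fun c : G => rich L c).image fun c => x * c⁻¹).card ≤ _ := card_image_le
  have i3 : ((univ.filter fun c : G => Fintype.card G <
        L * (univ.filter fun s => s * x * s⁻¹ = c).card).image fun c => c⁻¹).card ≤ _ :=
    card_image_le
  rw [card_singleton] at e3
  omega

open Classical in
theorem Nr_right (L : ℕ) (y : G) : (univ.filter fun x => Nr L x y).card ≤ 1 + 3 * L := by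
  have h1 : (univ.filter fun x => Nr L x y) ⊆ {y} ∪
      ((univ.filter fun c : G => rich L c).image fun c => c * y) ∪
      ((univ.filter fun c : G => rich L c).image fun c => y * c) ∪
      (univ.filter fun c : G => Fintype.card G <
        L * (univ.filter fun s => s⁻¹ * y⁻¹ * s = c).card) := by
    intro x hx
    rcases (mem_filter.1 hx).2 with h | h | h | h
    · exact mem_union_left _ (mem_union_left _ (mem_union_left _ (mem_singleton.2 h)))
    · refine mem_union_left _ (mem_union_left _ (mem_union_right _ (mem_image.2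
        ⟨x * y⁻¹, mem_filter.2 ⟨mem_univ _, h⟩, by group⟩)))
    · refine mem_union_left _ (mem_union_right _ (mem_image.2
        ⟨y⁻¹ * x, mem_filter.2 ⟨mem_univ _, h⟩, by group⟩))
    · refine mem_union_right _ (mem_filter.2 ⟨mem_univ _, h.trans_le (Nat.mul_le_mul_left _
        (card_le_card fun s hs => mem_filter.2 ⟨mem_univ _, ?_⟩))⟩)
      rw [← mem_Cj.1 hs]
      group
  have h2 := card_le_card h1
  have h3 := few_rich (G := G) L
  have h4 := few_fibre L fun s : G => s⁻¹ * y⁻¹ * s
  have e1 := card_union_le ({y} ∪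
      ((univ.filter fun c : G => rich L c).image fun c => c * y) ∪
      ((univ.filter fun c : G => rich L c).image fun c => y * c))
      (univ.filter fun c : G => Fintype.card G <
        L * (univ.filter fun s => s⁻¹ * y⁻¹ * s = c).card)
  have e2 := card_union_le ({y} ∪
      ((univ.filter fun c : G => rich L c).image fun c => c * y))
      ((univ.filter fun c : G => rich L c).image fun c => y * c)
  have e3 := card_union_le {y} ((univ.filter fun c : G => rich L c).image fun c => c * y)
  have i1 : ((univ.filter fun c : G => rich L c).image fun c => c * y).card ≤ _ := card_image_le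
  have i2 : ((univ.filter fun c : G => rich L c).image fun c => y * c).card ≤ _ := card_image_le
  rw [card_singleton] at e3
  omega

end Pool.Agent.K4H90.RU
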