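import Pool.Agent.K4H90.RU.Base

/-!
# The elements which can be used for a pair
-/

set_option autoImplicit false
set_option linter.unusedSectionVars false

namespace Pool.Agent.K4H90.RU

open Finset Pool.Agent.K4H90.RC

variable {G : Type} [Group G] [Fintype G] [DecidableEq G]

/-- An element in general position with respect to the base. -/
structure Gd (L : ℕ) (p : Fin 9 → G) (w : G) : Prop where
  a : ¬ Nr L w⁻¹ 1
  b : ∀ l, ¬ Nr L w⁻¹ (p l)⁻¹
  c : ∀ i, ¬ Nr L ((p i)⁻¹ * w) 1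
  d : ∀ i l, ¬ Nr L ((p i)⁻¹ * w) (p l)⁻¹
  e : ∀ i, ¬ Nr L (p i)⁻¹ w⁻¹

open Classical in
/-- The elements which are not in general position. -/
noncomputable def Xc (L : ℕ) (p : Fin 9 → G) : Finset G := univ.filter fun w => ¬ Gd L p w

theorem Xc_card (L : ℕ) (p : Fin 9 → G) : (Xc L p).card ≤ 109 * (1 + 3 * L) := by
  classical
  set K := 1 + 3 * L with hK
  have hcover : Xc L p ⊆ (univ.filter fun w : G => Nr L w⁻¹ 1) ∪
      (univ.biUnion fun l : Fin 9 => univ.filter fun w : G => Nr L w⁻¹ (p l)⁻¹) ∪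
      (univ.biUnion fun i : Fin 9 => univ.filter fun w : G => Nr L ((p i)⁻¹ * w) 1) ∪
      (univ.biUnion fun q : Fin 9 × Fin 9 => univ.filter fun w : G =>
        Nr L ((p q.1)⁻¹ * w) (p q.2)⁻¹) ∪
      (univ.biUnion fun i : Fin 9 => univ.filter fun w : G => Nr L (p i)⁻¹ w⁻¹) := by
    intro w hw
    have hw' := (mem_filter.1 hw).2
    by_contra hcon
    simp only [mem_union, mem_biUnion, mem_filter, mem_univ, true_and, not_or, not_exists] at hcon
    obtain ⟨⟨⟨⟨p1, p2⟩, p3⟩, p4⟩, p5⟩ := hcon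
    exact hw' ⟨p1, p2, p3, fun i l => p4 (i, l), p5⟩
  have u0 := card_le_card hcover
  have u1 := card_union_le ((univ.filter fun w : G => Nr L w⁻¹ 1) ∪
      (univ.biUnion fun l : Fin 9 => univ.filter fun w : G => Nr L w⁻¹ (p l)⁻¹) ∪
      (univ.biUnion fun i : Fin 9 => univ.filter fun w : G => Nr L ((p i)⁻¹ * w) 1) ∪
      (univ.biUnion fun q : Fin 9 × Fin 9 => univ.filter fun w : G =>
        Nr L ((p q.1)⁻¹ * w) (p q.2)⁻¹))
      (univ.biUnion fun i : Fin 9 => univ.filter fun w : G => Nr L (p i)⁻¹ w⁻¹)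
  have u2 := card_union_le ((univ.filter fun w : G => Nr L w⁻¹ 1) ∪
      (univ.biUnion fun l : Fin 9 => univ.filter fun w : G => Nr L w⁻¹ (p l)⁻¹) ∪
      (univ.biUnion fun i : Fin 9 => univ.filter fun w : G => Nr L ((p i)⁻¹ * w) 1))
      (univ.biUnion fun q : Fin 9 × Fin 9 => univ.filter fun w : G =>
        Nr L ((p q.1)⁻¹ * w) (p q.2)⁻¹)
  have u3 := card_union_le ((univ.filter fun w : G => Nr L w⁻¹ 1) ∪
      (univ.biUnion fun l : Fin 9 => univ.filter fun w : G => Nr L w⁻¹ (p l)⁻¹))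
      (univ.biUnion fun i : Fin 9 => univ.filter fun w : G => Nr L ((p i)⁻¹ * w) 1)
  have u4 := card_union_le (univ.filter fun w : G => Nr L w⁻¹ 1)
      (univ.biUnion fun l : Fin 9 => univ.filter fun w : G => Nr L w⁻¹ (p l)⁻¹)
  have v1 : (univ.filter fun w : G => Nr L w⁻¹ 1).card ≤ K := Nr_right' L (Equiv.inv G) 1
  have v2 : (univ.biUnion fun l : Fin 9 => univ.filter fun w : G => Nr L w⁻¹ (p l)⁻¹).card ≤
      9 * K := by
    refine card_biUnion_le.trans ((sum_le_sum fun l _ => Nr_right' L (Equiv.inv G) _).trans ?_)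
    simp [hK]
  have v3 : (univ.biUnion fun i : Fin 9 => univ.filter fun w : G => Nr L ((p i)⁻¹ * w) 1).card ≤
      9 * K := by
    refine card_biUnion_le.trans ((sum_le_sum fun i _ =>
      Nr_right' L (Equiv.mulLeft (p i)⁻¹) _).trans ?_)
    simp [hK]
  have v4 : (univ.biUnion fun q : Fin 9 × Fin 9 => univ.filter fun w : G =>
        Nr L ((p q.1)⁻¹ * w) (p q.2)⁻¹).card ≤ 81 * K := by
    refine card_biUnion_le.trans ((sum_le_sum fun q _ =>
      Nr_right' L (Equiv.mulLeft (p q.1)⁻¹) _).trans ?_)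
    simp [hK]
  have v5 : (univ.biUnion fun i : Fin 9 => univ.filter fun w : G => Nr L (p i)⁻¹ w⁻¹).card ≤
      9 * K := by
    refine card_biUnion_le.trans ((sum_le_sum fun i _ => Nr_left' L (Equiv.inv G) _).trans ?_)
    simp [hK]
  omega

/-- The points whose translates are touched by a flip. -/
def zt (p : Fin 9 → G) (g h : G) : Option (Fin 9 ⊕ Bool) → G
  | none => 1
  | some (Sum.inl i) => p i
  | some (Sum.inr true) => g
  | some (Sum.inr false) => h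

/-- `s` or its inverse. -/
def sg (e : Bool) (s : G) : G := if e then s else s⁻¹

theorem sg_inv (e : Bool) (s : G) : (sg e s)⁻¹ = sg (!e) s := by
  cases e <;> simp [sg]

/-- `s` or its inverse, as a bijection. -/
def sgE (e : Bool) : G ≃ G := if e then Equiv.refl G else Equiv.inv G

theorem sgE_apply (e : Bool) (s : G) : sgE e s = sg e s := by
  cases e <;> rfl

abbrev Ix : Type := (Option (Fin 9 ⊕ Bool) × Bool) ⊕ (Fin 9 × Option (Fin 9 ⊕ Bool) × Bool × Bool)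

/-- The elements of the environment of `s`. -/
def ev (p : Fin 9 → G) (g h : G) : Ix → G ≃ G
  | Sum.inl (z, f) => (Equiv.mulLeft (zt p g h z)⁻¹).trans (sgE f)
  | Sum.inr (i, z, e, f) =>
      ((sgE e).trans (Equiv.mulLeft ((p i)⁻¹ * zt p g h z))).trans (sgE f)

theorem ev_inl (p : Fin 9 → G) (g h : G) (z : Option (Fin 9 ⊕ Bool)) (f : Bool) (s : G) :
    ev p g h (Sum.inl (z, f)) s = sg f ((zt p g h z)⁻¹ * s) := by
  simp [ev, sgE_apply]

theorem ev_inr (p : Fin 9 → G) (g h : G) (i : Fin 9) (z : Option (Fin 9 ⊕ Bool)) (e f : Bool)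
    (s : G) : ev p g h (Sum.inr (i, z, e, f)) s = sg f ((p i)⁻¹ * zt p g h z * sg e s) := by
  simp [ev, sgE_apply, mul_assoc]

/-- The usable elements. -/
structure Us (p : Fin 9 → G) (g h s : G) : Prop where
  one : ∀ ι, ev p g h ι s ≠ 1
  gh : ¬ Cl (g⁻¹ * s) (h⁻¹ * s)
  iv : s ∉ Iv p
  a : ∀ i, s ∉ Bd (p i)⁻¹ 1
  b : ∀ i l, i ≠ l → s ∉ Bd (p i)⁻¹ (p l)⁻¹
  c : ∀ i j, i ≠ j → s ∉ Bd ((p i)⁻¹ * p j) 1
  d : ∀ i j l, i ≠ j → s ∉ Bd ((p i)⁻¹ * p j) (p l)⁻¹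
  e : ∀ w, w = g ∨ w = h → s ∉ Bd w⁻¹ 1
  f : ∀ w, w = g ∨ w = h → ∀ l, s ∉ Bd w⁻¹ (p l)⁻¹
  k : ∀ w, w = g ∨ w = h → ∀ i, s ∉ Bd ((p i)⁻¹ * w) 1
  m : ∀ w, w = g ∨ w = h → ∀ i l, s ∉ Bd ((p i)⁻¹ * w) (p l)⁻¹
  n : ∀ i, s ∉ Bd (p i)⁻¹ g⁻¹

open Classical in
/-- Many elements are usable. -/
theorem many_Us {p : Fin 9 → G} {g h : G} (hp : Gen 300000 p)
    (hI : 16 * (Iv p).card ≤ 3 * Fintype.card G) (hn : 30000 ≤ Fintype.card G)
    (hg : Gd 300000 p g) (hh : Gd 300000 p h) (hgh : g ≠ h) :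
    Fintype.card G ≤ 32 * (univ.filter fun s => Us p g h s).card := by
  set n := Fintype.card G with hn'
  set B0 : Finset G := univ.biUnion fun ι : Ix => univ.filter fun s => ev p g h ι s = 1 with hB0
  set B1 : Finset G := univ.filter fun s => Cl (g⁻¹ * s) (h⁻¹ * s) with hB1
  set Ba : Finset G := univ.biUnion fun i : Fin 9 => Bd (p i)⁻¹ 1 with hBa
  set Bb : Finset G := univ.biUnion fun q : Fin 9 × Fin 9 =>
    if q.1 ≠ q.2 then Bd (p q.1)⁻¹ (p q.2)⁻¹ else ∅ with hBb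
  set Bc : Finset G := univ.biUnion fun q : Fin 9 × Fin 9 =>
    if q.1 ≠ q.2 then Bd ((p q.1)⁻¹ * p q.2) 1 else ∅ with hBc
  set Bdd : Finset G := univ.biUnion fun q : Fin 9 × Fin 9 × Fin 9 =>
    if q.1 ≠ q.2.1 then Bd ((p q.1)⁻¹ * p q.2.1) (p q.2.2)⁻¹ else ∅ with hBdd
  set Be : G → Finset G := fun w => Bd w⁻¹ 1 with hBe
  set Bf : G → Finset G := fun w => univ.biUnion fun l : Fin 9 => Bd w⁻¹ (p l)⁻¹ with hBf
  set Bk : G → Finset G := fun w => univ.biUnion fun i : Fin 9 => Bd ((p i)⁻¹ * w) 1 with hBk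
  set Bm : G → Finset G := fun w => univ.biUnion fun q : Fin 9 × Fin 9 =>
    Bd ((p q.1)⁻¹ * w) (p q.2)⁻¹ with hBm
  set Bn : Finset G := univ.biUnion fun i : Fin 9 => Bd (p i)⁻¹ g⁻¹ with hBn
  have hcover : (univ : Finset G) ⊆ (univ.filter fun s => Us p g h s) ∪ B0 ∪ B1 ∪ Iv p ∪ Ba ∪ Bb ∪
      Bc ∪ Bdd ∪ (Be g ∪ Be h) ∪ (Bf g ∪ Bf h) ∪ (Bk g ∪ Bk h) ∪ (Bm g ∪ Bm h) ∪ Bn := by
    intro s _
    by_contra hcon
    simp only [mem_union, not_or] at hcon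
    obtain ⟨⟨⟨⟨⟨⟨⟨⟨⟨⟨⟨⟨c0, c1⟩, c2⟩, c3⟩, c4⟩, c5⟩, c6⟩, c7⟩, c8, c8'⟩, c9, c9'⟩, c10, c10'⟩,
      c11, c11'⟩, c12⟩ := hcon
    apply c0
    refine mem_filter.2 ⟨mem_univ _, ?_, ?_, c3, ?_, ?_, ?_, ?_, ?_, ?_, ?_, ?_, ?_⟩
    · intro ι hι
      exact c1 (mem_biUnion.2 ⟨ι, mem_univ _, mem_filter.2 ⟨mem_univ _, hι⟩⟩)
    · intro h1
      exact c2 (mem_filter.2 ⟨mem_univ _, h1⟩)
    · intro i h1
      exact c4 (mem_biUnion.2 ⟨i, mem_univ _, h1⟩)
    · intro i l hil h1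
      exact c5 (mem_biUnion.2 ⟨(i, l), mem_univ _, by rw [if_pos hil]; exact h1⟩)
    · intro i l hil h1
      exact c6 (mem_biUnion.2 ⟨(i, l), mem_univ _, by rw [if_pos hil]; exact h1⟩)
    · intro i j l hij h1
      exact c7 (mem_biUnion.2 ⟨(i, j, l), mem_univ _, by rw [if_pos hij]; exact h1⟩)
    · rintro w (rfl | rfl) h1
      · exact c8 h1
      · exact c8' h1
    · rintro w (rfl | rfl) l h1
      · exact c9 (mem_biUnion.2 ⟨l, mem_univ _, h1⟩)
      · exact c9' (mem_biUnion.2 ⟨l, mem_univ _, h1⟩)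
    · rintro w (rfl | rfl) i h1
      · exact c10 (mem_biUnion.2 ⟨i, mem_univ _, h1⟩)
      · exact c10' (mem_biUnion.2 ⟨i, mem_univ _, h1⟩)
    · rintro w (rfl | rfl) i l h1
      · exact c11 (mem_biUnion.2 ⟨(i, l), mem_univ _, h1⟩)
      · exact c11' (mem_biUnion.2 ⟨(i, l), mem_univ _, h1⟩)
    · intro i h1
      exact c12 (mem_biUnion.2 ⟨i, mem_univ _, h1⟩)
  have hcard := card_le_card hcover
  rw [card_univ, ← hn'] at hcard
  have t1 := card_union_le ((univ.filter fun s => Us p g h s) ∪ B0 ∪ B1 ∪ Iv p ∪ Ba ∪ Bb ∪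
      Bc ∪ Bdd ∪ (Be g ∪ Be h) ∪ (Bf g ∪ Bf h) ∪ (Bk g ∪ Bk h) ∪ (Bm g ∪ Bm h)) Bn
  have t2 := card_union_le ((univ.filter fun s => Us p g h s) ∪ B0 ∪ B1 ∪ Iv p ∪ Ba ∪ Bb ∪
      Bc ∪ Bdd ∪ (Be g ∪ Be h) ∪ (Bf g ∪ Bf h) ∪ (Bk g ∪ Bk h)) (Bm g ∪ Bm h)
  have t3 := card_union_le ((univ.filter fun s => Us p g h s) ∪ B0 ∪ B1 ∪ Iv p ∪ Ba ∪ Bb ∪
      Bc ∪ Bdd ∪ (Be g ∪ Be h) ∪ (Bf g ∪ Bf h)) (Bk g ∪ Bk h)
  have t4 := card_union_le ((univ.filter fun s => Us p g h s) ∪ B0 ∪ B1 ∪ Iv p ∪ Ba ∪ Bb ∪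
      Bc ∪ Bdd ∪ (Be g ∪ Be h)) (Bf g ∪ Bf h)
  have t5 := card_union_le ((univ.filter fun s => Us p g h s) ∪ B0 ∪ B1 ∪ Iv p ∪ Ba ∪ Bb ∪
      Bc ∪ Bdd) (Be g ∪ Be h)
  have t6 := card_union_le ((univ.filter fun s => Us p g h s) ∪ B0 ∪ B1 ∪ Iv p ∪ Ba ∪ Bb ∪ Bc) Bdd
  have t7 := card_union_le ((univ.filter fun s => Us p g h s) ∪ B0 ∪ B1 ∪ Iv p ∪ Ba ∪ Bb) Bc
  have t8 := card_union_le ((univ.filter fun s => Us p g h s) ∪ B0 ∪ B1 ∪ Iv p ∪ Ba) Bb
  have t9 := card_union_le ((univ.filter fun s => Us p g h s) ∪ B0 ∪ B1 ∪ Iv p) Ba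
  have t10 := card_union_le ((univ.filter fun s => Us p g h s) ∪ B0 ∪ B1) (Iv p)
  have t11 := card_union_le ((univ.filter fun s => Us p g h s) ∪ B0) B1
  have t12 := card_union_le (univ.filter fun s => Us p g h s) B0
  have t13 := card_union_le (Be g) (Be h)
  have t14 := card_union_le (Bf g) (Bf h)
  have t15 := card_union_le (Bk g) (Bk h)
  have t16 := card_union_le (Bm g) (Bm h)
  -- the bounds
  have e0 : B0.card ≤ 456 := by
    refine card_biUnion_le.trans ((sum_le_sum (g := fun _ => 1) fun ι _ => ?_).trans ?_)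
    · rw [card_le_one]
      intro s hs s' hs'
      exact (ev p g h ι).injective ((mem_filter.1 hs).2.trans (mem_filter.1 hs').2.symm)
    · simp
  have e1 : 4 * B1.card ≤ 3 * n := by
    have hc : g⁻¹ * h ≠ 1 := fun h1 => hgh (inv_mul_eq_one.1 h1)
    refine le_trans (Nat.mul_le_mul_left _ ?_) (Sq_card hc)
    refine card_le_card_of_injOn (fun s => g⁻¹ * s) ?_ (mul_right_injective _).injOn
    intro s hs
    refine mem_coe.2 (mem_Sq.2 ?_)
    rcases (mem_filter.1 hs).2 with h1 | h1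
    · exact absurd (inv_injective (mul_right_cancel h1)) hgh
    · show g⁻¹ * s * (g⁻¹ * s) = g⁻¹ * h
      nth_rewrite 1 [h1]
      have : g⁻¹ * h = g⁻¹ * h * (s⁻¹ * s) := by group
      have h2 : (h⁻¹ * s)⁻¹ = s⁻¹ * h := by group
      have h3 : g⁻¹ * s = s⁻¹ * h := by rw [h1, h2]
      have h4 : s = g * (s⁻¹ * h) := by rw [← h3]; group
      rw [h2]
      calc s⁻¹ * h * (g⁻¹ * s) = s⁻¹ * h * (s⁻¹ * h) := by rw [h3]
        _ = g⁻¹ * (g * (s⁻¹ * h)) * (s⁻¹ * h) := by group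
        _ = g⁻¹ * s * (s⁻¹ * h) := by rw [← h4]
        _ = g⁻¹ * h := by group
  have eB : ∀ x y : G, ¬ Nr 300000 x y → 100000 * (Bd x y).card ≤ n := by
    intro x y hxy
    have := Bd_card hxy
    omega
  have ea : 100000 * Ba.card ≤ 9 * n := by
    refine (Nat.mul_le_mul_left _ card_biUnion_le).trans ?_
    rw [mul_sum]
    refine (sum_le_sum fun i _ => eB _ _ (hp.a i)).trans ?_
    simp
  have eb : 100000 * Bb.card ≤ 81 * n := by
    refine (Nat.mul_le_mul_left _ card_biUnion_le).trans ?_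
    rw [mul_sum]
    refine (sum_le_sum (g := fun _ => n) fun q _ => ?_).trans ?_
    · split_ifs with hq
      · exact eB _ _ (hp.b _ _ hq)
      · simp
    · simp
  have ec : 100000 * Bc.card ≤ 81 * n := by
    refine (Nat.mul_le_mul_left _ card_biUnion_le).trans ?_
    rw [mul_sum]
    refine (sum_le_sum (g := fun _ => n) fun q _ => ?_).trans ?_
    · split_ifs with hq
      · exact eB _ _ (hp.c _ _ hq)
      · simp
    · simp
  have ed : 100000 * Bdd.card ≤ 729 * n := by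
    refine (Nat.mul_le_mul_left _ card_biUnion_le).trans ?_
    rw [mul_sum]
    refine (sum_le_sum (g := fun _ => n) fun q _ => ?_).trans ?_
    · split_ifs with hq
      · exact eB _ _ (hp.d _ _ _ hq)
      · simp
    · simp
  have ee : ∀ w, Gd 300000 p w → 100000 * (Be w).card ≤ n := fun w hw => eB _ _ hw.a
  have ef : ∀ w, Gd 300000 p w → 100000 * (Bf w).card ≤ 9 * n := by
    intro w hw
    refine (Nat.mul_le_mul_left _ card_biUnion_le).trans ?_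
    rw [mul_sum]
    refine (sum_le_sum fun i _ => eB _ _ (hw.b i)).trans ?_
    simp
  have ek : ∀ w, Gd 300000 p w → 100000 * (Bk w).card ≤ 9 * n := by
    intro w hw
    refine (Nat.mul_le_mul_left _ card_biUnion_le).trans ?_
    rw [mul_sum]
    refine (sum_le_sum fun i _ => eB _ _ (hw.c i)).trans ?_
    simp
  have em : ∀ w, Gd 300000 p w → 100000 * (Bm w).card ≤ 81 * n := by
    intro w hw
    refine (Nat.mul_le_mul_left _ card_biUnion_le).trans ?_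
    rw [mul_sum]
    refine (sum_le_sum fun q _ => eB _ _ (hw.d q.1 q.2)).trans ?_
    simp
  have en : 100000 * Bn.card ≤ 9 * n := by
    refine (Nat.mul_le_mul_left _ card_biUnion_le).trans ?_
    rw [mul_sum]
    refine (sum_le_sum fun i _ => eB _ _ (hg.e i)).trans ?_
    simp
  have ee1 := ee g hg
  have ee2 := ee h hh
  have ef1 := ef g hg
  have ef2 := ef h hh
  have ek1 := ek g hg
  have ek2 := ek h hh
  have em1 := em g hg
  have em2 := em h hh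
  omega

end Pool.Agent.K4H90.RU
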