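import Pool.Agent.K4H90.RU.PairU
import Pool.Agent.K4H90.RC.Main

/-!
# Random Cayley graphs and the Weisfeiler-Leman method
-/

set_option autoImplicit false
set_option linter.unusedSectionVars false

namespace Pool.Agent.K4H90.RU

open Finset Pool.Agent.K4H90.RC

section

variable {G : Type} [Group G] [Fintype G] [DecidableEq G]

/-- The Cayley graph (with loops if the bit at `1` is set). -/
def cayU (b : G → Bool) (x y : G) : Prop := cs b (x⁻¹ * y) = true

/-- The tuple. -/
def tp (p : Fin 9 → G) (x : G) : Fin 11 → G := Fin.snoc (Fin.cons 1 p : Fin 10 → G) x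

theorem tp_last (p : Fin 9 → G) (x : G) : tp p x (Fin.last 10) = x := Fin.snoc_last _ _

theorem tp_zero (p : Fin 9 → G) (x : G) : tp p x 0 = 1 := rfl

theorem tp_succ (p : Fin 9 → G) (x : G) (i : Fin 9) : tp p x i.succ.castSucc = p i := by
  unfold tp
  rw [Fin.snoc_castSucc, Fin.cons_succ]

theorem tp_update (p : Fin 9 → G) (x y : G) :
    Function.update (tp p x) (Fin.last 10) y = tp p y := Fin.update_snoc_last _ _ _

theorem TT_of_same {p : Fin 9 → G} {b : G → Bool} {g h : G}
    (hs : SameColour (cayU b) (cayU b) 1 (tp p g) (tp p h)) (j : ℕ) : TT p g j b = TT p h j b := by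
  obtain ⟨-, σ, hσ⟩ := hs
  have h1 : ∀ z, cs b z = cs b (σ z) ∧ ∀ i, cs b ((p i)⁻¹ * z) = cs b ((p i)⁻¹ * σ z) := by
    intro z
    have h2 := hσ z (Fin.last 10)
    rw [tp_update, tp_update] at h2
    refine ⟨?_, fun i => ?_⟩
    · have h3 := bool_eq (same_atom h2 0 (Fin.last 10)).2
      rw [tp_last, tp_last, tp_zero, tp_zero, inv_one, one_mul, one_mul] at h3
      exact h3
    · have h3 := bool_eq (same_atom h2 i.succ.castSucc (Fin.last 10)).2
      rw [tp_last, tp_last, tp_succ, tp_succ] at h3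
      exact h3
  have h2 : ∀ z, cs b (g⁻¹ * z) = cs b (h⁻¹ * σ z) := by
    intro z
    have h3 := bool_eq (same_atom (hσ z 0) 0 (Fin.last 10)).2
    rw [Function.update_self, Function.update_self, Function.update_of_ne (by decide),
      Function.update_of_ne (by decide), tp_last, tp_last] at h3
    rw [← cs_inv b (g⁻¹ * z), ← cs_inv b (h⁻¹ * σ z), mul_inv_rev, mul_inv_rev, inv_inv, inv_inv]
    exact h3
  unfold TT
  rw [← Equiv.sum_comp σ fun u => if Sgn p b j u ∧ cs b (h⁻¹ * u) = true then (1 : ℤ) else 0]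
  refine sum_congr rfl fun u _ => ?_
  have h3 : Sgn p b j u ↔ Sgn p b j (σ u) := by
    unfold Sgn
    rw [(h1 u).1]
    refine and_congr_right fun _ => forall_congr' fun i => ?_
    rw [(h1 u).2 i]
  simp only [h3, h2]

/-- The colours after two rounds are different. -/
theorem disc {L : ℕ} {p : Fin 9 → G} {b : G → Bool}
    (h1 : ∀ g h, Gd L p g → Gd L p h → g ≠ h → ∃ j < 5, DU p g h j b ≠ 0)
    (h2 : ∀ x y, x ≠ y → 2 * (Xc L p).card < (SepU x y b).card) (x y : G)
    (hxy : SameColour (cayU b) (cayU b) 2 (tp p x) (tp p y)) : x = y := by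
  classical
  by_contra hne
  have key : ∀ g h, Gd L p g → Gd L p h → SameColour (cayU b) (cayU b) 1 (tp p g) (tp p h) →
      g = h := by
    intro g h hg hh hs
    by_contra hgh
    obtain ⟨j, -, hj⟩ := h1 g h hg hh hgh
    exact hj (sub_eq_zero.2 (TT_of_same hs j))
  set Nq : Finset G := univ.filter fun u => Gd L p u ∧ ∃ u', u' ≠ u ∧
    SameColour (cayU b) (cayU b) 1 (tp p u) (tp p u') with hNq
  have hN : Nq.card ≤ (Xc L p).card := by
    have hex : ∀ u : G, ∃ u', u ∈ Nq → u' ≠ u ∧
        SameColour (cayU b) (cayU b) 1 (tp p u) (tp p u') := by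
      intro u
      by_cases hu : u ∈ Nq
      · obtain ⟨-, -, u', h3⟩ := mem_filter.1 hu
        exact ⟨u', fun _ => h3⟩
      · exact ⟨u, fun h => absurd h hu⟩
    choose f hf using hex
    refine card_le_card_of_injOn f ?_ ?_
    · intro u hu
      have hu' : u ∈ Nq := hu
      refine mem_coe.2 (mem_filter.2 ⟨mem_univ _, fun h3 => ?_⟩)
      exact (hf u hu').1 (key _ _ (mem_filter.1 hu').2.1 h3 (hf u hu').2).symm
    · intro u hu v hv huv
      have hu' : u ∈ Nq := hu
      have hv' : v ∈ Nq := hv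
      have h3 := (hf u hu').2
      rw [show f u = f v from huv] at h3
      exact key _ _ (mem_filter.1 hu').2.1 (mem_filter.1 hv').2.1
        (same_trans h3 (same_symm (hf v hv').2))
  have h3 : (Xc L p ∪ Nq).card < (SepU x y b).card := by
    have := card_union_le (Xc L p) Nq
    have := h2 x y hne
    omega
  obtain ⟨u, hu, hu'⟩ := exists_mem_notMem_of_card_lt_card h3
  rw [mem_union, not_or] at hu'
  obtain ⟨u1, u2⟩ := hu'
  have hg : Gd L p u := by
    by_contra h4
    exact u1 (mem_filter.2 ⟨mem_univ _, h4⟩)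
  obtain ⟨-, σ, hσ⟩ := hxy
  have h4 : σ u = u := by
    by_contra h5
    have h6 := hσ u (Fin.last 10)
    rw [tp_update, tp_update] at h6
    exact u2 (mem_filter.2 ⟨mem_univ _, hg, σ u, h5, h6⟩)
  have h5 := bool_eq (same_atom (hσ u 0) 0 (Fin.last 10)).2
  rw [Function.update_self, Function.update_self, Function.update_of_ne (by decide),
    Function.update_of_ne (by decide), tp_last, tp_last, h4] at h5
  exact (mem_filter.1 hu).2 h5

end

end Pool.Agent.K4H90.RU
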